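import Mathlib
import Pool.Agent.H2.MC.Words
import Pool.Agent.H17.EP.WinL
import Pool.Agent.H17.EP.Crit
import Pool.Agent.H54.TM.CaB

set_option autoImplicit false

/-!
# Littlewood for pairs coded by two blocks read forward (MP_0ea415): definitions

THEOREM 4 (Main4.lean). Let `f false`, `f true` be nonempty words of positive integers, `x`, `y` two sequences over two letters such that the
mirror image of every word of `x` and of every word of `y` occurs infinitely often in `x`; let the partial quotients of `α` be
`f (x 0) f (x 1) …` and those of `β` be `f (y 0) f (y 1) …` after preperiods (BOTH READ FORWARD), `α`, `β` neither rational nor quadratic. If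
`P n ≤ κ n` for infinitely many `n` (`P n`: number of words of length `n` which occur infinitely often in `pq α`), `κ < 2/(1+c)`, then
Littlewood's statement with the gain `q^(-c)` for `(g α, h β)`, `g`, `h` integer Möbius maps of nonzero determinant.
THEOREM 5 (Main5.lean). The same if (instead of the coding) all words of tails of `pq α` and `pq β` occur infinitely often in `pq α`, and
`P n ≤ (3/2) n` for ALL large `n`.

OUTLINE.
A. (Cat, NepA-NepC, Twi, Cnv, Lan, Crt4, Fin4, Main4) With `M0`, `M1` the continued fraction matrices of the blocks, the twist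
   `S = adj (M0 M1 - M1 M0) J` satisfies `M S = S Mᵀ` for `M = M0, M1`; so a word of `x` in `α` and its mirror image (as a word over two
   letters, NOT of integers) in `β` give a good denominator. The combinatorics of MirrorComplexity is applied to the two sequences
   `b' = cat f x` and `a' = cat (rv f) y` (reversed blocks).
B. (H54/RV/Rev, RevClo, by helper54) A language `Λ` over two letters which is factorial, irreducible and satisfies `Q Λ w m` (two
   right special words with the common part `t`, preceded by different letters, have weights `< 2` times the weight of `t`) is closed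
   under reversal.
C. (LvE, Cod, Dcd, Rcx, Ape, Rsp, Qx, Main5) The language of the coding by return words at a bispecial scale satisfies `Q`.
-/

namespace Pool.Agent.H1.DP

open Filter Pool.Agent.H2.MC Pool.Agent.H17.EP Pool.Agent.H54.TM Matrix

/-- the position of the `k`-th block in the concatenation `f (y 0) f (y 1) …` -/
def bp (f : Bool → List ℕ) (y : ℕ → Bool) (k : ℕ) : ℕ := ((lwin y 0 k).flatMap f).length

/-- the concatenation `f (y 0) f (y 1) …` (all blocks nonempty) -/
def cat (f : Bool → List ℕ) (y : ℕ → Bool) (n : ℕ) : ℕ := ((lwin y 0 (n + 1)).flatMap f).getD n 0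

/-- the reversed blocks -/
def rv (f : Bool → List ℕ) (a : Bool) : List ℕ := (f a).reverse

/-- eventually periodic sequences over two letters -/
def EvPB (y : ℕ → Bool) : Prop := ∃ N p, 0 < p ∧ ∀ n, N ≤ n → y (n + p) = y n

/-- the mirror image of every word of `x` and of every word of `y` occurs infinitely often in `x` -/
def MR (x y : ℕ → Bool) : Prop :=
  ∀ n i, (∃ᶠ p in atTop, lwin x p n = (lwin x i n).reverse) ∧ (∃ᶠ p in atTop, lwin x p n = (lwin y i n).reverse)

/-- the twist of the two blocks -/
def sm (f : Bool → List ℕ) : Matrix (Fin 2) (Fin 2) ℤ := tws (f false ++ f true) (f true ++ f false)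

/-- a right special word -/
def RSp (Λ : Set (List Bool)) (u : List Bool) : Prop := u ++ [false] ∈ Λ ∧ u ++ [true] ∈ Λ

/-- a factorial irreducible language over two letters with right special words of every length -/
structure BL (Λ : Set (List Bool)) : Prop where
  nil : [] ∈ Λ
  fac : ∀ u v w, u ++ v ++ w ∈ Λ → v ∈ Λ
  irr : ∀ u ∈ Λ, ∀ w ∈ Λ, ∃ v, u ++ v ++ w ∈ Λ
  ap : ∀ n, ∃ u, u.length = n ∧ RSp Λ u

/-- the weight of a word -/
def ln (w : Bool → ℕ) (m : ℕ) (u : List Bool) : ℕ := m + (u.map w).sum

/-- the gap condition -/
structure Q (Λ : Set (List Bool)) (w : Bool → ℕ) (m : ℕ) : Prop where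
  pos : ∀ a, 0 < w a
  lt : m < w false + w true
  gap : ∀ (a : Bool) (t v v' : List Bool), RSp Λ (v ++ a :: t) → RSp Λ (v' ++ (!a) :: t) →
    min (ln w m (v ++ a :: t)) (ln w m (v' ++ (!a) :: t)) < 2 * ln w m t

/-- `z` has constant run length `q` -/
def Cst (Λ : Set (List Bool)) (z : Bool) (q : ℕ) : Prop :=
  ∀ j, 0 < j → (!z) :: (List.replicate j z ++ [!z]) ∈ Λ → j = q

/-- a stage: `z` has constant run length `q`, the other letter has exactly the two run lengths `l < l'` -/
structure Stg (Λ : Set (List Bool)) (z : Bool) (q l l' : ℕ) : Prop where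
  q0 : 0 < q
  l0 : 0 < l
  ll : l < l'
  cst : Cst Λ z q
  el : z :: (List.replicate l (!z) ++ [z]) ∈ Λ
  el' : z :: (List.replicate l' (!z) ++ [z]) ∈ Λ
  ej : ∀ j, 0 < j → z :: (List.replicate j (!z) ++ [z]) ∈ Λ → j = l ∨ j = l'

/-- the blocks of the desubstitution -/
def blk (z : Bool) (q l l' : ℕ) (b : Bool) : List Bool :=
  List.replicate (if b then l' else l) (!z) ++ List.replicate q z

/-- the substitution: `psi r = z^q e^(l or l') z^q …`, palindromic -/
def psi (z : Bool) (q l l' : ℕ) (r : List Bool) : List Bool := List.replicate q z ++ r.flatMap (blk z q l l')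

/-- the derived language -/
def Lm (Λ : Set (List Bool)) (z : Bool) (q l l' : ℕ) : Set (List Bool) := {r | psi z q l l' r ∈ Λ}

/-- the language of a sequence over two letters -/
def lg (x : ℕ → Bool) : Set (List Bool) := {u | ∃ k, lwin x k u.length = u}

/-- the blocks `f false`, `f true` are the return words at a bispecial scale of slope one -/
structure Lv (b : ℕ → ℕ) (m : ℕ) (R : List ℕ) (c d : ℕ) (f : Bool → List ℕ) : Prop where
  Rl : R.length = m
  cd : c ≠ d
  ne : ∀ a, f a ≠ []
  fR : ∀ a, (f a ++ R).take (m + 1) = R ++ [if a then d else c]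
  two : ∀ e, R ++ [e] ∈ RecB b (m + 1) → e = c ∨ e = d
  ret : ∀ z, H1.DC.In b (m + 1) z → ∀ i a, win z i (m + 1) = R ++ [if a then d else c] →
    win z i ((f a).length + m) = f a ++ R
  no : ∀ z, H1.DC.In b (m + 1) z → ∀ i a, win z i (m + 1) = R ++ [if a then d else c] →
    ∀ t, 0 < t → t < (f a).length → win z (i + t) m ≠ R
  last : (f false).getLast? ≠ (f true).getLast?
  cnt : (f false).length + (f true).length = (RecB b m).ncard + 1

/-- the sequence `z` is coded by `x` -/
structure Cd (m : ℕ) (R : List ℕ) (c d : ℕ) (f : Bool → List ℕ) (z : ℕ → ℕ) (x : ℕ → Bool) : Prop where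
  at_ : ∀ k, win z (bp f x k) (m + 1) = R ++ [if x k then d else c]
  rd : ∀ n, win z 0 (bp f x n) = (lwin x 0 n).flatMap f
  all : ∀ i, win z i m = R → ∃ k, i = bp f x k

end Pool.Agent.H1.DP
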