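import Mathlib
import Pool.Agent.H1.DP.Defs

set_option autoImplicit false

/-!
# Module Blx (120 lines): the language of a recurrent aperiodic sequence over two letters

`lg x` = the words `u` with `lwin x k u.length = u` for some `k`.
PROOFS.
* `ape`: suppose no word of length `n` is right special, i.e. `lwin x i n = lwin x j n` implies `x (i + n) = x (j + n)` (otherwise, with
  `u = lwin x i n`, `u ++ [x (i+n)] = lwin x i (n+1)` and `u ++ [x (j+n)] = lwin x j (n+1)` are both in `lg x` and the two letters are `false`,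
  `true` in some order). Among the windows `lwin x i n`, `i ≤ 2^n`, two are equal, `i < j` (there are `2^n` lists of length `n` over `Bool`:
  `Finite` of `{l : List Bool | l.length = n}` (`List.finite_length_eq`) is enough with the infinitely many `i`:
  `Set.infinite_univ`, `Set.MapsTo`/`Finite.exists_ne_map_eq_of_infinite`). Then `lwin x (i + t) n = lwin x (j + t) n` for all `t` by induction (`lwin_succ`,
  `lwin_succ'`: windows of length `n + 1` at `i + t`, `j + t` agree, drop the first letter); so `x (i + t) = x (j + t)` for all `t` (if `n > 0` the first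
  letter of the window; in general from `x (i + t + n) = x (j + t + n)`). So `EvPB x` with period `j - i` from `i + n` on.
* `bl_lg`: `nil`: `k = 0`. `fac`: `lwin_add`, `List.append_inj`: `v` is the window at `k + u.length`. `irr`: `u` at `k`; `w` occurs at some `k' ≥ k + u.length`
  (`hrec`, `frequently_atTop`); `v = lwin x (k + u.length) (k' - k - u.length)`; the window at `k` is `u ++ v ++ w` (`lwin_add` twice). `ap`: `ape`.
-/

namespace Pool.Agent.H1.DP

open Filter Pool.Agent.H2.MC Pool.Agent.H17.EP

variable {x : ℕ → Bool}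

private lemma Blx_mem (x : ℕ → Bool) (k n : ℕ) : lwin x k n ∈ lg x := ⟨k, by simp⟩

private lemma Blx_mem_snoc (x : ℕ → Bool) (k n : ℕ) (c : Bool) (hc : x (k + n) = c) :
    lwin x k n ++ [c] ∈ lg x := by
  rw [← hc, ← lwin_succ]
  exact Blx_mem x k (n + 1)

private lemma Blx_key (n : ℕ) (hn : ¬ ∃ u : List Bool, u.length = n ∧ RSp (lg x) u) (i j : ℕ)
    (h : lwin x i n = lwin x j n) : x (i + n) = x (j + n) := by
  by_contra hne
  refine hn ⟨lwin x i n, by simp, ?_⟩
  have h1 := Blx_mem_snoc x i n _ rfl
  have h2 := Blx_mem_snoc x j n _ rfl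
  rw [← h] at h2
  unfold RSp
  cases hi : x (i + n) <;> cases hj : x (j + n)
  · exact absurd (hi.trans hj.symm) hne
  · rw [hi] at h1
    rw [hj] at h2
    exact ⟨h1, h2⟩
  · rw [hi] at h1
    rw [hj] at h2
    exact ⟨h2, h1⟩
  · exact absurd (hi.trans hj.symm) hne

private lemma Blx_step (n : ℕ) (hn : ¬ ∃ u : List Bool, u.length = n ∧ RSp (lg x) u) (i j : ℕ)
    (h : lwin x i n = lwin x j n) : ∀ t, lwin x (i + t) n = lwin x (j + t) n := by
  intro t
  induction t with
  | zero => simpa using h
  | succ t ih =>
    have h1 := Blx_key n hn _ _ ih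
    have h2 : lwin x (i + t) (n + 1) = lwin x (j + t) (n + 1) := by
      rw [lwin_succ, lwin_succ, ih, h1]
    rw [lwin_succ', lwin_succ'] at h2
    have h3 := (List.cons.inj h2).2
    rw [← Nat.add_assoc, ← Nat.add_assoc]
    exact h3

private lemma Blx_evp (n : ℕ) (hn : ¬ ∃ u : List Bool, u.length = n ∧ RSp (lg x) u) (i j : ℕ)
    (hij : i < j) (h : lwin x i n = lwin x j n) : EvPB x := by
  refine ⟨i + n, j - i, by omega, fun m hm => ?_⟩
  obtain ⟨t, rfl⟩ := Nat.exists_eq_add_of_le hm
  have h1 := Blx_key n hn _ _ (Blx_step n hn i j h t)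
  have e1 : i + n + t + (j - i) = j + t + n := by omega
  have e2 : i + n + t = i + t + n := by omega
  rw [e1, e2]
  exact h1.symm

theorem ape (hx : ¬ EvPB x) (n : ℕ) : ∃ u, u.length = n ∧ RSp (lg x) u := by
  by_contra hn
  haveI : Finite {l : List Bool // l.length = n} :=
    (inferInstance : Finite (List.Vector Bool n))
  obtain ⟨i, j, hne, h⟩ := Finite.exists_ne_map_eq_of_infinite
    (fun i : ℕ => (⟨lwin x i n, by simp⟩ : {l : List Bool // l.length = n}))
  have h' : lwin x i n = lwin x j n := congrArg Subtype.val h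
  rcases Nat.lt_or_gt_of_ne hne with hij | hij
  · exact hx (Blx_evp n hn i j hij h')
  · exact hx (Blx_evp n hn j i hij h'.symm)

theorem bl_lg (hx : ¬ EvPB x) (hrec : ∀ u ∈ lg x, ∃ᶠ k in atTop, lwin x k u.length = u) : BL (lg x) := by
  refine ⟨⟨0, rfl⟩, ?_, ?_, ape hx⟩
  · rintro u v w ⟨k, hk⟩
    refine ⟨k + u.length, ?_⟩
    rw [List.length_append, List.length_append, lwin_add, lwin_add] at hk
    have h1 := (List.append_inj hk (by simp)).1
    exact (List.append_inj h1 (by simp)).2
  · intro u hu w hw
    obtain ⟨k, hk⟩ := hu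
    obtain ⟨k', hk', hw'⟩ := (frequently_atTop.mp (hrec w hw)) (k + u.length)
    refine ⟨lwin x (k + u.length) (k' - k - u.length), k, ?_⟩
    rw [List.length_append, List.length_append, lwin_add, lwin_add, lwin_length, hk]
    have e : k + (u.length + (k' - k - u.length)) = k' := by omega
    rw [e, hw']

end Pool.Agent.H1.DP
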