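import Mathlib
import Pool.Agent.H1.DP.Defs

set_option autoImplicit false

/-!
# Module Cat (140 lines): concatenation of blocks

`lwin` (windows over `Bool`): lemmas in `H17/EP/WinL`; `win`: `H2/MC/Words`. `bp f y k` = length of the first `k` blocks.
PROOFS.
* `bp_add`: `lwin_add` and `List.flatMap_append`, lengths. `bp_succ`: `n = 1` (`lwin_one`). `bp_mono`: `strictMono_nat_of_lt_succ`, `bp_succ`,
  blocks nonempty. `le_bp`: `flatMap_len` of `WinL` or `StrictMono.id_le`.
* `cat_get`: `cat f y n` is the letter `n` of `(lwin y 0 K).flatMap f` for every `K` with `n < bp f y K`: both `(lwin y 0 (n+1)).flatMap f`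
  (length `≥ n + 1` by `le_bp`) and `(lwin y 0 K).flatMap f` are prefixes of the one with `max (n+1) K` (`lwin_add`, `flatMap_append`), and
  contain the index `n`.
* `cat_blk`: compare letters (`List.ext_getElem`): the letter `t` of the right side is the letter `bp f y k + t` of
  `(lwin y 0 (k+n)).flatMap f = (lwin y 0 k).flatMap f ++ (lwin y k n).flatMap f`; `cat_get`.
* `cat_of_reads`: `Reads` with `K = n + 1`: `win b i (bp f y (n+1)) = (lwin y 0 (n+1)).flatMap f`; letter `n`, `win_getElem`.
* `win_of_reads`: `win_eq_iff` and `cat_of_reads`.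
* `bp_loc`: the largest `k` with `bp f y k ≤ i` (`Nat.find` of `i < bp f y (k+1)`; exists because `k + 1 ≤ bp f y (k+1)`).
* `cat_cover`: `t` from `bp_loc` for `i`, `p1` = first `i - bp f y t < |f (y t)| ≤ L` letters; `k` the least with `i + n ≤ bp f y (t+k)`
  (exists by `le_bp`): then `bp f y (t+k) - (i+n) ≤ L`, since for `k = 0` it is `0` or negative (`bp f y t ≤ i`, so `i + n ≤ bp f y t` forces
  equality), and for `k = k'+1`, `bp f y (t+k') < i + n` and the block has at most `L` letters. By `cat_blk`,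
  `(lwin y t k).flatMap f = win (cat f y) (bp f y t) (bp f y (t+k) - bp f y t)`; split with `win_add` at `i` and `i + n`.
* `rec_of_occ`: at every `p` with `lwin x p u.length = u`, `cat_blk` (`k = p`, `n = u.length`) gives
  `win (cat f x) (bp f x p) (u.flatMap f).length = p1 ++ w ++ p2`, so `w = win (cat f x) (bp f x p + p1.length) w.length` (`win_add`,
  `List.append_inj`), and `p ≤ bp f x p` (`Filter.frequently_atTop`).
-/

namespace Pool.Agent.H1.DP

open Filter Pool.Agent.H2.MC Pool.Agent.H17.EP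

variable {f : Bool → List ℕ}

lemma bp_zero (f : Bool → List ℕ) (y : ℕ → Bool) : bp f y 0 = 0 := by
  simp [bp]

lemma bp_add (f : Bool → List ℕ) (y : ℕ → Bool) (k n : ℕ) :
    bp f y (k + n) = bp f y k + ((lwin y k n).flatMap f).length := by
  unfold bp
  rw [lwin_add, List.flatMap_append, List.length_append, Nat.zero_add]

lemma bp_succ (f : Bool → List ℕ) (y : ℕ → Bool) (k : ℕ) : bp f y (k + 1) = bp f y k + (f (y k)).length := by
  rw [bp_add, lwin_one]
  simp

lemma bp_mono (hf : ∀ a, f a ≠ []) (y : ℕ → Bool) : StrictMono (bp f y) := by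
  refine strictMono_nat_of_lt_succ fun k => ?_
  rw [bp_succ]
  have := List.length_pos_iff.2 (hf (y k))
  omega

lemma le_bp (hf : ∀ a, f a ≠ []) (y : ℕ → Bool) (k : ℕ) : k ≤ bp f y k :=
  flatMap_len y f hf 0 k

private lemma cat_pre (y : ℕ → Bool) (K K' n : ℕ) (hK : K ≤ K') (h : n < ((lwin y 0 K).flatMap f).length) :
    ((lwin y 0 K').flatMap f)[n]? = ((lwin y 0 K).flatMap f)[n]? := by
  obtain ⟨d, rfl⟩ := Nat.exists_eq_add_of_le hK
  rw [lwin_add, List.flatMap_append, List.getElem?_append_left h]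

lemma cat_get (hf : ∀ a, f a ≠ []) (y : ℕ → Bool) (K n : ℕ) (h : n < ((lwin y 0 K).flatMap f).length) :
    cat f y n = ((lwin y 0 K).flatMap f)[n] := by
  have h1 : n < ((lwin y 0 (n + 1)).flatMap f).length :=
    lt_of_lt_of_le (Nat.lt_succ_self n) (flatMap_len y f hf 0 (n + 1))
  have e1 := cat_pre y (n + 1) (max (n + 1) K) n (le_max_left _ _) h1
  have e2 := cat_pre y K (max (n + 1) K) n (le_max_right _ _) h
  unfold cat
  rw [List.getD_eq_getElem?_getD, ← e1, e2, List.getElem?_eq_getElem h]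
  rfl

lemma cat_blk (hf : ∀ a, f a ≠ []) (y : ℕ → Bool) (k n : ℕ) :
    win (cat f y) (bp f y k) ((lwin y k n).flatMap f).length = (lwin y k n).flatMap f := by
  apply List.ext_getElem
  · simp
  · intro t h1 h2
    have hlen : bp f y k + t < ((lwin y 0 (k + n)).flatMap f).length := by
      have := bp_add f y k n
      unfold bp at this
      rw [this]
      unfold bp
      omega
    rw [win_getElem, cat_get hf y (k + n) (bp f y k + t) hlen]
    have e : (lwin y 0 (k + n)).flatMap f = (lwin y 0 k).flatMap f ++ (lwin y k n).flatMap f := by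
      rw [lwin_add, List.flatMap_append, Nat.zero_add]
    rw [List.getElem_of_eq e hlen, List.getElem_append_right (by unfold bp; omega)]
    congr 1
    unfold bp
    omega

lemma cat_of_reads (hf : ∀ a, f a ≠ []) {b : ℕ → ℕ} {i : ℕ} {y : ℕ → Bool} (h : Reads b i f y) (n : ℕ) :
    cat f y n = b (i + n) := by
  have h1 : n < ((lwin y 0 (n + 1)).flatMap f).length :=
    lt_of_lt_of_le (Nat.lt_succ_self n) (flatMap_len y f hf 0 (n + 1))
  have h2 : n < (win b i ((lwin y 0 (n + 1)).flatMap f).length).length := by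
    rw [win_length]
    exact h1
  rw [cat_get hf y (n + 1) n h1, ← List.getElem_of_eq (h (n + 1)) h2, win_getElem]

lemma win_of_reads (hf : ∀ a, f a ≠ []) {b : ℕ → ℕ} {i : ℕ} {y : ℕ → Bool} (h : Reads b i f y) (j n : ℕ) :
    win b (i + j) n = win (cat f y) j n := by
  rw [win_eq_iff]
  intro t _
  rw [cat_of_reads hf h (j + t), Nat.add_assoc]

lemma bp_loc (hf : ∀ a, f a ≠ []) (y : ℕ → Bool) (i : ℕ) : ∃ k, bp f y k ≤ i ∧ i < bp f y (k + 1) := by
  have hex : ∃ k, i < bp f y (k + 1) := ⟨i, lt_of_lt_of_le (Nat.lt_succ_self i) (le_bp hf y (i + 1))⟩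
  classical
  refine ⟨Nat.find hex, ?_, Nat.find_spec hex⟩
  rcases Nat.eq_zero_or_pos (Nat.find hex) with h0 | h0
  · rw [h0, bp_zero]
    exact Nat.zero_le _
  · have h1 := Nat.find_min hex (m := Nat.find hex - 1) (by omega)
    rw [Nat.sub_add_cancel h0] at h1
    omega

lemma cat_cover (hf : ∀ a, f a ≠ []) {L : ℕ} (hL : ∀ a, (f a).length ≤ L) (y : ℕ → Bool) (i n : ℕ) :
    ∃ (t k : ℕ) (p1 p2 : List ℕ), (lwin y t k).flatMap f = p1 ++ win (cat f y) i n ++ p2 ∧ p1.length ≤ L ∧
      p2.length ≤ L ∧ i = bp f y t + p1.length := by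
  classical
  obtain ⟨t, ht1, ht2⟩ := bp_loc hf y i
  have hex : ∃ k, i + n ≤ bp f y (t + k) := ⟨i + n, le_trans (by omega) (le_bp hf y (t + (i + n)))⟩
  obtain ⟨k, hk1, hk2⟩ : ∃ k, i + n ≤ bp f y (t + k) ∧ ∀ m < k, ¬ i + n ≤ bp f y (t + m) :=
    ⟨Nat.find hex, Nat.find_spec hex, fun m hm => Nat.find_min hex hm⟩
  have hb := bp_succ f y t
  have hLt := hL (y t)
  have hlen := bp_add f y t k
  have hblk := cat_blk hf y t k
  have hW : ((lwin y t k).flatMap f).length = (i - bp f y t) + n + (bp f y (t + k) - (i + n)) := by omega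
  refine ⟨t, k, win (cat f y) (bp f y t) (i - bp f y t), win (cat f y) (i + n) (bp f y (t + k) - (i + n)),
    ?_, ?_, ?_, ?_⟩
  · rw [hW] at hblk
    rw [← hblk, win_add, win_add]
    have e1 : bp f y t + (i - bp f y t) = i := by omega
    have e2 : bp f y t + (i - bp f y t + n) = i + n := by omega
    rw [e1, e2]
  · rw [win_length]
    omega
  · rw [win_length]
    rcases Nat.eq_zero_or_pos k with h0 | h0
    · rw [h0, Nat.add_zero]
      omega
    · have h1 := hk2 (k - 1) (by omega)
      have h2 := bp_succ f y (t + (k - 1))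
      have h3 := hL (y (t + (k - 1)))
      have e3 : t + (k - 1) + 1 = t + k := by omega
      rw [e3] at h2
      omega
  · rw [win_length]
    omega

lemma rec_of_occ (hf : ∀ a, f a ≠ []) {x : ℕ → Bool} {u : List Bool} {w p1 p2 : List ℕ}
    (hu : ∃ᶠ p in atTop, lwin x p u.length = u) (h : u.flatMap f = p1 ++ w ++ p2) :
    w ∈ RecB (cat f x) w.length := by
  show ∃ᶠ i in atTop, win (cat f x) i w.length = w
  rw [frequently_atTop] at hu ⊢
  intro a
  obtain ⟨p, hp, hpu⟩ := hu a
  refine ⟨bp f x p + p1.length, ?_, ?_⟩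
  · exact le_trans hp (le_trans (le_bp hf x p) (Nat.le_add_right _ _))
  · have h1 := cat_blk hf x p u.length
    rw [hpu, h, List.length_append, List.length_append, win_add, win_add] at h1
    have h2 := (List.append_inj h1 (by simp)).1
    exact (List.append_inj h2 (by simp)).2

end Pool.Agent.H1.DP
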