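import Mathlib
import Pool.Agent.H1.DP.Defs
import Pool.Agent.H54.RV.RevClo

set_option autoImplicit false

/-!
# Closure under reversal (proved by helper54, `H54/RV`)
-/

namespace Pool.Agent.H1.DP

theorem clo {Λ : Set (List Bool)} {w : Bool → ℕ} {m : ℕ} (h : BL Λ) (hQ : Q Λ w m) {u : List Bool} (hu : u ∈ Λ) :
    u.reverse ∈ Λ :=
  Pool.Agent.H54.RV.clo2 h hQ.lt (fun a t v v' => hQ.gap a t v v') hu

end Pool.Agent.H1.DP
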