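import Mathlib
import Pool.Agent.H1.DP.Defs
import Pool.Agent.H54.TM.Tw

set_option autoImplicit false

/-!
# Module Twi (50 lines): the twist of two blocks

`sm f = tws (f false ++ f true) (f true ++ f false) = (M0 M1 - M1 M0).adjugate * Ji` with `M0 = cfZ (f false)`, `M1 = cfZ (f true)`
(`cfZ_append`).
PROOFS.
* `sm_eq`: unfold, `cfZ_append`.
* `sm_one`: `cfZ (f a) * sm f = sm f * (cfZ (f a))ᵀ`: `comm_T` (for `M0`) and `comm_T'` (for `M1`) of `H54/TM/Tw`.
* `sm_tw`: induction on `u`: `(a :: u).flatMap f = f a ++ u.flatMap f`; `cfZ (f a) * (cfZ (u.flatMap f) * S) = cfZ (f a) * S * (cfZ (u.reverse.flatMap f))ᵀ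
  = S * (cfZ (f a))ᵀ * (cfZ (u.reverse.flatMap f))ᵀ = S * (cfZ (u.reverse.flatMap f) * cfZ (f a))ᵀ`, and `(a :: u).reverse.flatMap f =
  u.reverse.flatMap f ++ f a`.
* `sm_det`: `tws_det_ne` with `w1 = f false`, `w2 = f true`, `R = []`.
-/

namespace Pool.Agent.H1.DP

open Filter Pool.Agent.H2.MC Pool.Agent.H17.EP Pool.Agent.H54.TM Matrix

variable {f : Bool → List ℕ}

lemma sm_eq (f : Bool → List ℕ) :
    sm f = (cfZ (f false) * cfZ (f true) - cfZ (f true) * cfZ (f false)).adjugate * Ji := by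
  unfold sm tws
  rw [cfZ_append, cfZ_append]

lemma sm_one (f : Bool → List ℕ) (a : Bool) : cfZ (f a) * sm f = sm f * (cfZ (f a))ᵀ := by
  rw [sm_eq]
  cases a
  · exact comm_T (cfZ (f false)) (cfZ (f true))
  · exact comm_T' (cfZ (f false)) (cfZ (f true))

theorem sm_tw (f : Bool → List ℕ) (u : List Bool) :
    cfZ (u.flatMap f) * sm f = sm f * (cfZ (u.reverse.flatMap f))ᵀ := by
  induction u with
  | nil =>
    have h : cfZ ([] : List ℕ) = 1 := by
      ext i j
      rw [cfZ_apply, Pool.Agent.H2.Sturm.cfMat_nil]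
      fin_cases i <;> fin_cases j <;> simp
    simp [h]
  | cons a u ih =>
    have h1 : (a :: u).flatMap f = f a ++ u.flatMap f := rfl
    have h2 : (a :: u).reverse.flatMap f = u.reverse.flatMap f ++ f a := by
      simp [List.flatMap_append]
    rw [h1, h2, cfZ_append, cfZ_append, Matrix.mul_assoc, ih, ← Matrix.mul_assoc, sm_one,
      Matrix.mul_assoc, Matrix.transpose_mul]

theorem sm_det (hf : ∀ a, f a ≠ []) (hp : ∀ a, ∀ e ∈ f a, 0 < e) (hc : f false ++ f true ≠ f true ++ f false) :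
    (sm f).det ≠ 0 :=
  tws_det_ne (w1 := f false) (w2 := f true) (R := []) (List.nil_append _).symm (List.nil_append _).symm
    (hp false) (hp true) (hf false) hc

end Pool.Agent.H1.DP
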