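import Mathlib
import Pool.Agent.H1.DP.Cat
import Pool.Agent.H1.DP.Twi

set_option autoImplicit false

/-!
# Module Cnv (150 lines): a mirrored word of the two auxiliary sequences is a twisted word of `b` and `a`

`b = pq α`, `a = pq β`; `Reads b i0 f x`, `Reads a j0 f y` (both read forward). The auxiliary sequences are `cat f x` and `cat (rv f) y`.
PROOF. `L = |f false| + |f true|`. Let `X = win (cat f x) i n = mir (cat (rv f) y) j n`. By `win_of_reads`, `X = win b (i0 + i) n`.
`cat_cover` for the blocks `rv f` (nonempty, lengths `≤ L`) and the window of `cat (rv f) y` at `j` of length `n`, whose reverse is `X`: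
`(lwin y t k).flatMap (rv f) = p1 ++ X.reverse ++ p2`, `|p1|, |p2| ≤ L`, `j = bp (rv f) y t + |p1|`. Put `u = lwin y t k`. As
`u.flatMap (rv f) = (u.reverse.flatMap f).reverse` (`flatMap_rev` of `H17/EP/WtM`, unfold `rv`; used as `s.flatMap (rv f) =
(s.reverse.flatMap f).reverse`, induction if the form differs), `u.reverse.flatMap f = p2.reverse ++ X ++ p1.reverse`. `sm_tw` for
`u.reverse`: `cfZ p2.reverse * (cfZ X * cfZ p1.reverse) * S = S * (cfZ (u.flatMap f))ᵀ`, `S = sm f` (`cfZ_append`).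
`Vb = u.flatMap f`; `jj = j0 + bp f y t`; `bp f y t = bp (rv f) y t` (lengths of flatMap: the reversed blocks have the same lengths), so
`jj ≤ j0 + j`; `win a jj Vb.length = Vb` from `win_of_reads` and `cat_blk`. Length: `|Vb| = |u.flatMap (rv f)| = |p1| + n + |p2|`.
`Z = cfZ p1.reverse * S`; `Z' = d • ((cfZ p2.reverse).adjugate * S)`, `d = (cfZ p2.reverse).det`, `d² = 1` (`cfZ_det_sq`); multiply the identity
by the adjugate (`cfZ_adj`) and by `d` (`smul_sq_one` in `H54/TM/Crit` is useful). `Z.det = (cfZ p1.reverse).det * S.det ≠ 0` (`sm_det`, `cfZ_det_sq`).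
Bounds: all letters of the blocks are positive and `≤ M` for some `M` (finitely many letters); `p1.reverse`, `p2.reverse` are words of
length `≤ L` with such letters (they are parts of `u.reverse.flatMap f`); `|cfZ w k l| ≤ siz w` (`cfZ_bd`) and `siz w ≤ (M+1)^|w| ≤ (M+1)^L`
(induction with `cfMat_ineq`, or the private lemma `siz_le_pow` of `H2/MC/DioC.lean`, copy it); `mul_bd`, `adj_bd`. So
`z = 1 + 2 (M+1)^L * s` works with `s` a bound for the entries of `S`.
-/

namespace Pool.Agent.H1.DP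

open Filter Pool.Agent.H2.MC Pool.Agent.H2.Sturm Pool.Agent.H17.EP Pool.Agent.H54.TM Matrix

variable {f : Bool → List ℕ}

private lemma cnv_siz (A : ℕ) (w : List ℕ) (h : ∀ x ∈ w, 0 < x ∧ x ≤ A) :
    siz w ≤ (A + 1) ^ w.length := by
  induction w with
  | nil => simp [siz, cfMat_nil]
  | cons a w ih =>
    have h1 : siz (a :: w) = a * siz w + cfMat w 1 0 := cfMat_cons_00 a w
    have h2 : cfMat w 1 0 ≤ siz w :=
      (cfMat_ineq w (fun x hx => (h x (List.mem_cons_of_mem _ hx)).1)).2.2.1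
    have h3 := ih (fun x hx => h x (List.mem_cons_of_mem _ hx))
    have h4 : a ≤ A := (h a (by simp)).2
    rw [h1, List.length_cons]
    calc a * siz w + cfMat w 1 0 ≤ A * siz w + siz w := Nat.add_le_add (Nat.mul_le_mul_right _ h4) h2
      _ = (A + 1) * siz w := by ring
      _ ≤ (A + 1) * (A + 1) ^ w.length := Nat.mul_le_mul_left _ h3
      _ = (A + 1) ^ (w.length + 1) := by ring

private lemma cnv_bd (A L : ℕ) (w : List ℕ) (h : ∀ x ∈ w, 0 < x ∧ x ≤ A) (hw : w.length ≤ L)
    (k l : Fin 2) : |(cfZ w k l : ℝ)| ≤ ((A : ℝ) + 1) ^ L := by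
  refine (cfZ_bd (fun x hx => (h x hx).1) k l).trans ?_
  have h1 : siz w ≤ (A + 1) ^ L :=
    (cnv_siz A w h).trans (Nat.pow_le_pow_right (Nat.succ_pos A) hw)
  exact_mod_cast h1

private lemma cnv_bp (f : Bool → List ℕ) (y : ℕ → Bool) (k : ℕ) : bp (rv f) y k = bp f y k := by
  simp [bp, rv, List.length_flatMap]

private lemma cnv_rev (f : Bool → List ℕ) (u : List Bool) :
    u.flatMap (rv f) = (u.reverse.flatMap f).reverse := by
  have h := flatMap_rev (f := f) u.reverse
  rw [List.reverse_reverse] at h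
  exact h

theorem cnv (hf : ∀ a, f a ≠ []) (hp : ∀ a, ∀ e ∈ f a, 0 < e) (hc : f false ++ f true ≠ f true ++ f false)
    {b a : ℕ → ℕ} {i0 j0 : ℕ} {x y : ℕ → Bool} (hx : Reads b i0 f x) (hy : Reads a j0 f y) :
    ∃ (L : ℕ) (z : ℝ), 1 ≤ z ∧ ∀ i j n, win (cat f x) i n = mir (cat (rv f) y) j n →
      ∃ (jj : ℕ) (Vb : List ℕ) (Z Z' : Matrix (Fin 2) (Fin 2) ℤ), jj ≤ j0 + j ∧ n ≤ Vb.length ∧
        Vb.length ≤ n + 2 * L ∧ win a jj Vb.length = Vb ∧ (∀ k l, |(Z k l : ℝ)| ≤ z) ∧
        (∀ k l, |(Z' k l : ℝ)| ≤ z) ∧ Z.det ≠ 0 ∧ cfZ (win b (i0 + i) n) * Z = Z' * (cfZ Vb)ᵀ := by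
  obtain ⟨M, hM⟩ := Finset.exists_le ((f false ++ f true).toFinset)
  have hM' : ∀ c, ∀ e ∈ f c, 0 < e ∧ e ≤ M := by
    intro c e he
    refine ⟨hp c e he, hM e ?_⟩
    rw [List.mem_toFinset, List.mem_append]
    cases c
    · exact Or.inl he
    · exact Or.inr he
  set L : ℕ := (f false).length + (f true).length with hLdef
  have hrv : ∀ c, rv f c ≠ [] := fun c => by
    unfold rv
    rw [Ne, List.reverse_eq_nil_iff]
    exact hf c
  have hL : ∀ c, (rv f c).length ≤ L := by
    intro c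
    unfold rv
    rw [List.length_reverse, hLdef]
    cases c <;> omega
  obtain ⟨s, hs0, hs⟩ : ∃ s : ℝ, 0 ≤ s ∧ ∀ k l, |(sm f k l : ℝ)| ≤ s := by
    refine ⟨∑ k, ∑ l, |(sm f k l : ℝ)|, Finset.sum_nonneg fun _ _ => Finset.sum_nonneg
      fun _ _ => abs_nonneg _, fun k l => ?_⟩
    refine le_trans ?_ (Finset.single_le_sum (f := fun k => ∑ l, |(sm f k l : ℝ)|)
      (fun _ _ => Finset.sum_nonneg fun _ _ => abs_nonneg _) (Finset.mem_univ k))
    exact Finset.single_le_sum (f := fun l => |(sm f k l : ℝ)|) (fun _ _ => abs_nonneg _)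
      (Finset.mem_univ l)
  have hD : (0 : ℝ) ≤ ((M : ℝ) + 1) ^ L := by positivity
  refine ⟨L, 1 + 2 * ((M : ℝ) + 1) ^ L * s, ?_, ?_⟩
  · have : 0 ≤ 2 * ((M : ℝ) + 1) ^ L * s := by positivity
    linarith
  intro i j n hX
  obtain ⟨t, k, p1, p2, hcov, hp1, hp2, hj⟩ := cat_cover hrv hL y j n
  have hlet : ∀ e ∈ (lwin y t k).flatMap (rv f), 0 < e ∧ e ≤ M := by
    intro e he
    rw [List.mem_flatMap] at he
    obtain ⟨c, -, hc'⟩ := he
    unfold rv at hc'
    rw [List.mem_reverse] at hc'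
    exact hM' c e hc'
  have hl1 : ∀ e ∈ p1.reverse, 0 < e ∧ e ≤ M := by
    intro e he
    rw [List.mem_reverse] at he
    apply hlet
    rw [hcov]
    simp [he]
  have hl2 : ∀ e ∈ p2.reverse, 0 < e ∧ e ≤ M := by
    intro e he
    rw [List.mem_reverse] at he
    apply hlet
    rw [hcov]
    simp [he]
  have hrev : (lwin y t k).reverse.flatMap f =
      p2.reverse ++ (win (cat f x) i n ++ p1.reverse) := by
    have h1 := cnv_rev f (lwin y t k)
    rw [hcov] at h1
    have h2 := congrArg List.reverse h1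
    rw [List.reverse_reverse, List.reverse_append, List.reverse_append] at h2
    rw [← h2, hX]
    rfl
  have htw := sm_tw f (lwin y t k).reverse
  rw [List.reverse_reverse, hrev, cfZ_append, cfZ_append] at htw
  have hlen : ((lwin y t k).flatMap f).length = p1.length + n + p2.length := by
    have h1 : ((lwin y t k).flatMap f).length = ((lwin y t k).flatMap (rv f)).length := by
      simp [rv, List.length_flatMap]
    rw [h1, hcov, List.length_append, List.length_append, win_length]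
  have hd : (cfZ p2.reverse).det ^ 2 = 1 := cfZ_det_sq _
  have hdabs : |((cfZ p2.reverse).det : ℝ)| = 1 := by
    have h1 : ((cfZ p2.reverse).det : ℝ) ^ 2 = 1 := by exact_mod_cast hd
    rw [← sq_abs] at h1
    exact (pow_eq_one_iff_of_nonneg (abs_nonneg _) two_ne_zero).mp h1
  refine ⟨j0 + bp f y t, (lwin y t k).flatMap f, cfZ p1.reverse * sm f,
    (cfZ p2.reverse).det • ((cfZ p2.reverse).adjugate * sm f), ?_, ?_, ?_, ?_, ?_, ?_, ?_, ?_⟩
  · rw [hj, cnv_bp]
    omega
  · omega
  · omega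
  · rw [win_of_reads hf hy, cat_blk hf]
  · intro k' l'
    have h1 := mul_bd (cnv_bd M L p1.reverse hl1 (by rw [List.length_reverse]; exact hp1)) hs k' l'
    linarith
  · intro k' l'
    have h1 := mul_bd (adj_bd (cnv_bd M L p2.reverse hl2
      (by rw [List.length_reverse]; exact hp2))) hs k' l'
    rw [Matrix.smul_apply, smul_eq_mul, Int.cast_mul, abs_mul, hdabs, one_mul]
    linarith
  · rw [Matrix.det_mul]
    refine mul_ne_zero ?_ (sm_det hf hp hc)
    intro h0
    have h1 := cfZ_det_sq p1.reverse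
    rw [h0] at h1
    norm_num at h1
  · rw [win_of_reads hf hx, Matrix.smul_mul, Matrix.mul_assoc (cfZ p2.reverse).adjugate, ← htw]
    have h1 : (cfZ p2.reverse).adjugate * (cfZ p2.reverse * (cfZ (win (cat f x) i n) *
        cfZ p1.reverse) * sm f) = (cfZ p2.reverse).det • (cfZ (win (cat f x) i n) *
        (cfZ p1.reverse * sm f)) := by
      rw [Matrix.mul_assoc (cfZ p2.reverse), ← Matrix.mul_assoc, cfZ_adj, Matrix.smul_mul,
        Matrix.one_mul, Matrix.mul_assoc]
    rw [h1, smul_sq_one hd]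

end Pool.Agent.H1.DP
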