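import Mathlib
import Pool.Agent.H1.DP.Cat
import Pool.Agent.H1.DC.Det

set_option autoImplicit false

/-!
# Module Cod (130 lines): coding by return words

PROOF of `cd_ex`. Define positions `s : ℕ → ℕ`, `s 0 = 0`, `s (k + 1) = s k + (f (decide (z (s k + m) = d))).length`, and `x k = decide (z (s k + m) = d)`.
* `win z (s k) m = R` for all `k`, by induction: `win z (s k) (m + 1) = R ++ [z (s k + m)] ∈ RecB b (m + 1)` (`win_succ`, `hz`), so the letter is `c` or `d`
  (`Lv.two`), in both cases it is `if x k then d else c` (`Lv.cd`). `Lv.ret` with `a = x k`: `win z (s k) ((f (x k)).length + m) = f (x k) ++ R`; so `R` occurs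
  at `s k + (f (x k)).length = s (k + 1)` (`win_add`, `List.append_inj`) and `win z (s k) (f (x k)).length = f (x k)`.
* `bp f x k = s k` by induction (`bp_succ`, `bp_zero`).
* `at_`: done. `rd`: induction on `n`: `win z 0 (bp f x (n+1)) = win z 0 (bp f x n) ++ win z (bp f x n) (f (x n)).length` (`bp_succ`, `win_add`), `lwin_succ`,
  `List.flatMap_append`.
* `all`: `win z i m = R`. `bp_loc`: `bp f x k ≤ i < bp f x (k + 1) = bp f x k + (f (x k)).length`. If `i = bp f x k` done; otherwise `t = i - bp f x k` with
  `0 < t < (f (x k)).length` contradicts `Lv.no` (with `a = x k` and `at_`).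
-/

namespace Pool.Agent.H1.DP

open Filter Pool.Agent.H2.MC Pool.Agent.H17.EP Pool.Agent.H1.DC

theorem cd_ex {b : ℕ → ℕ} {m : ℕ} {R : List ℕ} {c d : ℕ} {f : Bool → List ℕ} (h : Lv b m R c d f) {z : ℕ → ℕ}
    (hz : In b (m + 1) z) (h0 : win z 0 m = R) : ∃ x, Cd m R c d f z x := by
  classical
  let s : ℕ → ℕ := fun k => Nat.rec 0 (fun _ q => q + (f (decide (z (q + m) = d))).length) k
  have s0 : s 0 = 0 := rfl
  have s1 : ∀ k, s (k + 1) = s k + (f (decide (z (s k + m) = d))).length := fun _ => rfl
  let x : ℕ → Bool := fun k => decide (z (s k + m) = d)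
  have xd : ∀ k, x k = decide (z (s k + m) = d) := fun _ => rfl
  have letter : ∀ k, win z (s k) m = R → win z (s k) (m + 1) = R ++ [if x k then d else c] := by
    intro k hk
    have h1 : win z (s k) (m + 1) = R ++ [z (s k + m)] := by rw [win_succ, hk]
    have h2 : R ++ [z (s k + m)] ∈ RecB b (m + 1) := by rw [← h1]; exact hz (s k)
    rw [h1, xd]
    by_cases hd : z (s k + m) = d
    · simp [hd]
    · rcases h.two _ h2 with h3 | h3
      · simp [h3, h.cd]
      · exact absurd h3 hd
  have step : ∀ k, win z (s k) m = R → win z (s k) (f (x k)).length = f (x k) ∧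
      win z (s k + (f (x k)).length) m = R := by
    intro k hk
    have h1 := h.ret z hz (s k) (x k) (letter k hk)
    rw [win_add] at h1
    exact List.append_inj h1 (by simp)
  have occ : ∀ k, win z (s k) m = R := by
    intro k
    induction k with
    | zero => exact h0
    | succ k ih => exact (step k ih).2
  have bps : ∀ k, bp f x k = s k := by
    intro k
    induction k with
    | zero => rw [bp_zero, s0]
    | succ k ih => rw [bp_succ, s1, ih]
  have hat : ∀ k, win z (bp f x k) (m + 1) = R ++ [if x k then d else c] := fun k => by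
    rw [bps]; exact letter k (occ k)
  refine ⟨x, ⟨hat, fun n => ?_, fun i hi => ?_⟩⟩
  · induction n with
    | zero => simp [bp_zero]
    | succ n ih =>
      rw [bp_succ, win_add, ih, lwin_succ, List.flatMap_append, Nat.zero_add, Nat.zero_add, bps,
        (step n (occ n)).1]
      simp
  · obtain ⟨k, hk1, hk2⟩ := bp_loc h.ne x i
    by_cases hik : i = bp f x k
    · exact ⟨k, hik⟩
    · exfalso
      rw [bp_succ] at hk2
      refine h.no z hz (bp f x k) (x k) (hat k) (i - bp f x k) (by omega) (by omega) ?_
      rw [Nat.add_sub_cancel' hk1]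
      exact hi

end Pool.Agent.H1.DP
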