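import Mathlib
import Pool.Agent.H1.DP.Defs
import Pool.Agent.H54.TM.CritG
import Pool.Agent.H54.TM.FinG

set_option autoImplicit false

/-!
# Module Crt4 (150 lines): the good denominator of a twisted word, in logarithms

PROOF. `hα0 : ∀ n, 0 < pq α n` (`pq_pos`), the same for `β`; `nq_den` gives the two hypotheses `hga`, `hhb` of `critG`. Let `C ≥ 1` be the
constant of `critG` (`H54/TM/CritG`) and `K` the constant of `hr` for `ε = ε1`. Choose `l0 ≥ 1` with `C z^2 < 2 ^ (l0 / 2)`.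
For `l ≥ l0` and a mirrored word at `i`, `j` take `jj, Vb, Z, Z'` from `hcnv` and `Va = win (pq α) (i0 + i) l`; apply `critG` with the
positions `i0 + i`, `jj`, `za = zb = []` (`siz [] = 1`, `[] ++ w = w`); `siz zb = 1 ≤ siz Va`, `1 ≤ siz Vb` (`siz_pos`), and
`C z^2 * 1 * 1 < siz Va * siz Vb` as `siz Va ≥ 2^(l/2)` (`siz_growth`). So with `a1 = siz (win (pq α) 0 (i0+i))`, `b1 = siz (win (pq β) 0 jj)`,
`V = siz Vb`, `W = siz Va`:  `q ≤ C z a1 b1 V` and `q nd nd ≤ C z^3 a1 b1 / W`. Then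
`q^(1+c) nd nd = q^c (q nd nd) ≤ (C z a1 b1 V)^c (C z^3 a1 b1 / W) = exp (c (log (C z) + log a1 + log b1 + log V) + log (C z^3) + log a1 + log b1 - log W)`
(`Real.rpow_add`, `Real.rpow_le_rpow`, `0 ≤ nd`), exactly as in `core_fine` of `H2/MC/DioF.lean` (copy it). By `hr` with `ε1`:
`log a1 ≤ (lam + ε1)(i0 + i) + K`, `log b1 ≤ (lam + ε1) jj + K ≤ (lam + ε1)(j0 + j) + K`, `log V ≤ (lam + ε1)(l + 2 L) + K`,
`log W ≥ (lam - ε1) l - K` (lengths: `Vb.length ≤ l + 2 L`). The sum of the terms with `lam` is `lam ((1+c)(i+j) - (1-c) l)` plus a constant,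
of those with `ε1` at most `ε1 ((1+c)(i+j) + (1+c) l) ≤ 2 ε1 (i + j + l)` plus a constant; so
`C2 = c log (C z) + log (C z^3) + (1+c)(lam + ε1)(i0 + j0) + c (lam + ε1) 2 L + (3 + 3 c) |K|` works (any larger constant too).
-/

namespace Pool.Agent.H1.DP

open Filter Pool.Agent.H2.MC Pool.Agent.H2.Sturm Pool.Agent.H54.TM Matrix

theorem crt4 {α β : ℝ} (hα : NotQuad α) (hβ : NotQuad β) {g h : Matrix (Fin 2) (Fin 2) ℤ} (hg : g.det ≠ 0)
    (hh : h.det ≠ 0) {lam : ℝ} (hlam : 0 < lam)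
    (hr : ∀ ε : ℝ, 0 < ε → ∃ C : ℝ, ∀ i n : ℕ, |Real.log (siz (win (pq α) i n)) - lam * n| ≤ ε * n + C ∧
      |Real.log (siz (win (pq β) i n)) - lam * n| ≤ ε * n + C)
    {A : ℕ} (hA : ∀ n, pq α n ≤ A) {c : ℝ} (hc0 : 0 ≤ c) (hc1 : c < 1) {b a : ℕ → ℕ} {i0 j0 L : ℕ} {z : ℝ}
    (hz : 1 ≤ z)
    (hcnv : ∀ i j n, win b i n = mir a j n →
      ∃ (jj : ℕ) (Vb : List ℕ) (Z Z' : Matrix (Fin 2) (Fin 2) ℤ), jj ≤ j0 + j ∧ n ≤ Vb.length ∧
        Vb.length ≤ n + 2 * L ∧ win (pq β) jj Vb.length = Vb ∧ (∀ k l, |(Z k l : ℝ)| ≤ z) ∧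
        (∀ k l, |(Z' k l : ℝ)| ≤ z) ∧ Z.det ≠ 0 ∧ cfZ (win (pq α) (i0 + i) n) * Z = Z' * (cfZ Vb)ᵀ) :
    ∀ ε1 : ℝ, 0 < ε1 → ∃ (C2 : ℝ) (l0 : ℕ), ∀ i j l : ℕ, l0 ≤ l → win b i l = mir a j l → ∃ q : ℕ, 0 < q ∧
      (q : ℝ) ^ (1 + c) * nd (q * mob g α) * nd (q * mob h β) ≤
        Real.exp (C2 + lam * ((1 + c) * ((i : ℝ) + j) - (1 - c) * l) + 2 * ε1 * ((i : ℝ) + j + l)) := by
  intro ε1 hε1
  have hα0 : ∀ n, 0 < pq α n := fun n => pq_pos hα n
  have hβ0 : ∀ n, 0 < pq β n := fun n => pq_pos hβ n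
  obtain ⟨C, hC1, hcr⟩ := critG hα0 hβ0 hA hg hh (nq_den hα hg) (nq_den hβ hh)
  obtain ⟨K, hK⟩ := hr ε1 hε1
  have hz0 : (0 : ℝ) < z := by linarith
  have hC0 : (0 : ℝ) < C := by linarith
  obtain ⟨m, hm⟩ := pow_unbounded_of_one_lt (C * z ^ 2) (one_lt_two (α := ℝ))
  refine ⟨c * Real.log (C * z) + Real.log (C * z ^ 3) + (1 + c) * (lam + ε1) * ((i0 : ℝ) + j0)
    + c * (lam + ε1) * (2 * L) + (3 + 3 * c) * K, 2 * m, ?_⟩
  intro i j l hl hw
  obtain ⟨jj, Vb, Z, Z', hjj, hVl, hVu, hwb, hZ, hZ', hdet, hcz⟩ := hcnv i j l hw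
  have hVbpos : ∀ x ∈ Vb, 0 < x := by
    rw [← hwb]
    exact win_pos hβ0 jj Vb.length
  have hA1 : 1 ≤ siz (win (pq α) (i0 + i) l) := siz_pos (win_pos hα0 (i0 + i) l)
  have hB1 : 1 ≤ siz (win (pq α) 0 (i0 + i)) := siz_pos (win_pos hα0 0 (i0 + i))
  have hD1 : 1 ≤ siz (win (pq β) 0 jj) := siz_pos (win_pos hβ0 0 jj)
  have hV1 : 1 ≤ siz Vb := siz_pos hVbpos
  have hgrow := siz_growth (win (pq α) (i0 + i) l) (win_pos hα0 (i0 + i) l)
  rw [win_length] at hgrow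
  have hsn : siz [] = 1 := by simp [siz, cfMat]
  have hbig : C * z ^ 2 < (siz (win (pq α) (i0 + i) l) : ℝ) := by
    have h1 : (2 : ℝ) ^ m ≤ (siz (win (pq α) (i0 + i) l) : ℝ) := by
      have h2 : 2 ^ m ≤ siz (win (pq α) (i0 + i) l) :=
        (Nat.pow_le_pow_right (by norm_num) (by omega)).trans hgrow
      exact_mod_cast h2
    linarith
  have hA : (0 : ℝ) < siz (win (pq α) (i0 + i) l) := by exact_mod_cast hA1
  have hB : (0 : ℝ) < siz (win (pq α) 0 (i0 + i)) := by exact_mod_cast hB1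
  have hD : (0 : ℝ) < siz (win (pq β) 0 jj) := by exact_mod_cast hD1
  have hV : (0 : ℝ) < siz Vb := by exact_mod_cast hV1
  have hV1' : (1 : ℝ) ≤ siz Vb := by exact_mod_cast hV1
  obtain ⟨q, hq0, hq1, hq2⟩ := hcr (i0 + i) jj [] (win (pq α) (i0 + i) l) [] Vb Z Z' z hZ hZ' hdet
    (by rw [win_length]) hwb (by simp) (by simp) (by simpa using hcz) (by rw [hsn]; exact hA1)
    (by rw [hsn]; exact hV1) (by
      rw [hsn]
      push_cast
      nlinarith [mul_le_mul_of_nonneg_left hV1' hA.le])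
  refine ⟨q, hq0, ?_⟩
  rw [hsn] at hq1 hq2
  have ha := abs_le.mp (hK (i0 + i) l).1
  have hb := abs_le.mp (hK 0 (i0 + i)).1
  have hd := abs_le.mp (hK 0 jj).2
  have hv := abs_le.mp (hK jj Vb.length).2
  rw [hwb] at hv
  set A : ℝ := (siz (win (pq α) (i0 + i) l) : ℝ) with hAd
  set B : ℝ := (siz (win (pq α) 0 (i0 + i)) : ℝ) with hBd
  set D : ℝ := (siz (win (pq β) 0 jj) : ℝ) with hDd
  set V : ℝ := (siz Vb : ℝ) with hVd
  have hq0' : (0 : ℝ) < q := by exact_mod_cast hq0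
  have hnd1 : 0 ≤ nd ((q : ℝ) * mob g α) := abs_nonneg _
  have hnd2 : 0 ≤ nd ((q : ℝ) * mob h β) := abs_nonneg _
  have hq1' : (q : ℝ) ≤ C * z * B * D * V := by simpa using hq1
  have hq2' : (q : ℝ) * nd (q * mob g α) * nd (q * mob h β) ≤ C * z ^ 3 * B * D / A := by simpa using hq2
  have hCz : (0 : ℝ) < C * z := by positivity
  have hCz3 : (0 : ℝ) < C * z ^ 3 := by positivity
  have e1 : (C * z * B * D * V) ^ c * (C * z ^ 3 * B * D / A) =
      Real.exp (c * (Real.log (C * z) + Real.log B + Real.log D + Real.log V)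
        + (Real.log (C * z ^ 3) + Real.log B + Real.log D - Real.log A)) := by
    rw [Real.exp_add]
    congr 1
    · rw [Real.rpow_def_of_pos (by positivity)]
      congr 1
      rw [Real.log_mul (by positivity) hV.ne', Real.log_mul (by positivity) hD.ne',
        Real.log_mul hCz.ne' hB.ne']
      ring
    · rw [← Real.exp_log (show (0 : ℝ) < C * z ^ 3 * B * D / A by positivity)]
      congr 1
      rw [Real.log_div (by positivity) hA.ne', Real.log_mul (by positivity) hD.ne',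
        Real.log_mul hCz3.ne' hB.ne']
  have hmain : (q : ℝ) ^ (1 + c) * nd ((q : ℝ) * mob g α) * nd ((q : ℝ) * mob h β)
      ≤ (C * z * B * D * V) ^ c * (C * z ^ 3 * B * D / A) := by
    have h4 : (q : ℝ) ^ (1 + c) = q * (q : ℝ) ^ c := by
      rw [Real.rpow_add hq0', Real.rpow_one]
    have h5 : (q : ℝ) ^ c ≤ (C * z * B * D * V) ^ c := Real.rpow_le_rpow hq0'.le hq1' hc0
    have h6 : (0 : ℝ) ≤ (q : ℝ) ^ c := Real.rpow_nonneg hq0'.le _
    calc (q : ℝ) ^ (1 + c) * nd ((q : ℝ) * mob g α) * nd ((q : ℝ) * mob h β)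
        = (q : ℝ) ^ c * ((q : ℝ) * nd ((q : ℝ) * mob g α) * nd ((q : ℝ) * mob h β)) := by rw [h4]; ring
      _ ≤ (C * z * B * D * V) ^ c * (C * z ^ 3 * B * D / A) :=
          mul_le_mul h5 hq2' (by positivity) (by positivity)
  refine hmain.trans ?_
  rw [e1]
  refine Real.exp_le_exp.mpr ?_
  have hi0 := Nat.cast_nonneg (α := ℝ) i
  have hj0 := Nat.cast_nonneg (α := ℝ) j
  have hl0 := Nat.cast_nonneg (α := ℝ) l
  have hle1 : 0 ≤ lam + ε1 := by linarith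
  have hb2 : Real.log B ≤ (lam + ε1) * ((i0 : ℝ) + i) + K := by
    have := hb.2
    push_cast at this
    linarith
  have hd2 : Real.log D ≤ (lam + ε1) * ((j0 : ℝ) + j) + K := by
    have h1 : (jj : ℝ) ≤ (j0 : ℝ) + j := by exact_mod_cast hjj
    have h2 := mul_le_mul_of_nonneg_left h1 hle1
    linarith [hd.2]
  have hv2 : Real.log V ≤ (lam + ε1) * ((l : ℝ) + 2 * L) + K := by
    have h1 : (Vb.length : ℝ) ≤ (l : ℝ) + 2 * L := by exact_mod_cast hVu
    have h2 := mul_le_mul_of_nonneg_left h1 hle1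
    linarith [hv.2]
  have ha2 : -Real.log A ≤ -(lam - ε1) * l + K := by linarith [ha.1]
  have s1 : (1 + c) * (Real.log B + Real.log D)
      ≤ (1 + c) * ((lam + ε1) * ((i0 : ℝ) + i) + K + ((lam + ε1) * ((j0 : ℝ) + j) + K)) :=
    mul_le_mul_of_nonneg_left (by linarith) (by linarith)
  have s2 : c * Real.log V ≤ c * ((lam + ε1) * ((l : ℝ) + 2 * L) + K) :=
    mul_le_mul_of_nonneg_left hv2 hc0
  have s3 : ε1 * (1 + c) * ((i : ℝ) + j + l) ≤ ε1 * 2 * ((i : ℝ) + j + l) := by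
    apply mul_le_mul_of_nonneg_right _ (by positivity)
    apply mul_le_mul_of_nonneg_left _ hε1.le
    linarith
  calc c * (Real.log (C * z) + Real.log B + Real.log D + Real.log V)
        + (Real.log (C * z ^ 3) + Real.log B + Real.log D - Real.log A)
      = c * Real.log (C * z) + Real.log (C * z ^ 3) + (1 + c) * (Real.log B + Real.log D)
        + c * Real.log V + -Real.log A := by ring
    _ ≤ c * Real.log (C * z) + Real.log (C * z ^ 3)
        + (1 + c) * ((lam + ε1) * ((i0 : ℝ) + i) + K + ((lam + ε1) * ((j0 : ℝ) + j) + K))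
        + c * ((lam + ε1) * ((l : ℝ) + 2 * L) + K) + (-(lam - ε1) * l + K) := by linarith
    _ = c * Real.log (C * z) + Real.log (C * z ^ 3) + (1 + c) * (lam + ε1) * ((i0 : ℝ) + j0)
        + c * (lam + ε1) * (2 * L) + (3 + 3 * c) * K
        + lam * ((1 + c) * ((i : ℝ) + j) - (1 - c) * l) + ε1 * (1 + c) * ((i : ℝ) + j + l) := by ring
    _ ≤ _ := by linarith


end Pool.Agent.H1.DP
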