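import Mathlib
import Pool.Agent.H1.DP.Cat
import Pool.Agent.H1.DC.Det

/-!
# Module Dcd (130 lines): decoding

PROOFS.
* `lv_pre`: induction on `u`: `(a :: u).flatMap f ++ R = f a ++ (u.flatMap f ++ R) = f a ++ (R ++ t)` (induction hypothesis), and `f a ++ R` has the prefix
  `R` (`Lv.fR`: its `take (m + 1)` is `R ++ [..]`).
* `lv_next`: `((a :: u).flatMap f ++ R).take (m + 1) = R ++ [if a then d else c]`: it is `f a ++ (R ++ t)` with `R.length = m`, and
  `(f a ++ R).length ≥ m + 1`, so its first `m + 1` letters are those of `f a ++ R`; `Lv.fR`.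
* `cd_win`: the blocks: `win z (bp f x k) ((lwin x k n).flatMap f).length = (lwin x k n).flatMap f` from `Cd.rd (k + n)` (`bp_add`, `win_add`, `lwin_add`,
  `List.flatMap_append`, `List.append_inj`); then `R` at `bp f x (k + n)` from `Cd.at_` (`win_take` of `m + 1` letters, or `win_succ`); `win_add`.
* `cd_dec`: `R` is a prefix of the word (`lv_pre`), so `win z i m = R`, and `i = bp f x k` (`Cd.all`). `lwin x k u.length = u` by induction on `u`
  (for all `k`): for `a :: u`: the first `m + 1` letters are `R ++ [if x k then d else c]` by `Cd.at_` and `R ++ [if a then d else c]` by `lv_next`; so `x k = a`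
  (`Lv.cd`). Drop `(f a).length = bp f x (k + 1) - bp f x k` letters (`bp_succ`, `win_add`): the hypothesis for `u` at `bp f x (k + 1)`;
  `lwin_succ'`.
-/

set_option autoImplicit false

namespace Pool.Agent.H1.DP

open Filter Pool.Agent.H2.MC Pool.Agent.H17.EP Pool.Agent.H1.DC

variable {b : ℕ → ℕ} {m : ℕ} {R : List ℕ} {c d : ℕ} {f : Bool → List ℕ} {z : ℕ → ℕ} {x : ℕ → Bool}

private lemma dcd_split (hl : Lv b m R c d f) (a : Bool) :
    f a ++ R = R ++ ([if a then d else c] ++ (f a ++ R).drop (m + 1)) := by
  have h1 := hl.fR a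
  have h2 := List.take_append_drop (m + 1) (f a ++ R)
  rw [h1] at h2
  rw [← List.append_assoc]
  exact h2.symm

private lemma dcd_len (hl : Lv b m R c d f) (a : Bool) : 1 ≤ (f a).length :=
  List.length_pos_iff.2 (hl.ne a)

lemma lv_pre (hl : Lv b m R c d f) (u : List Bool) : ∃ t, u.flatMap f ++ R = R ++ t := by
  induction u with
  | nil => exact ⟨[], by simp⟩
  | cons a u ih =>
    obtain ⟨t, ht⟩ := ih
    refine ⟨([if a then d else c] ++ (f a ++ R).drop (m + 1)) ++ t, ?_⟩
    rw [List.flatMap_cons, List.append_assoc, ht, ← List.append_assoc, ← List.append_assoc R,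
      ← dcd_split hl a]

lemma lv_next (hl : Lv b m R c d f) (a : Bool) (u : List Bool) :
    ((a :: u).flatMap f ++ R).take (m + 1) = R ++ [if a then d else c] := by
  obtain ⟨t, ht⟩ := lv_pre hl u
  rw [List.flatMap_cons, List.append_assoc, ht, ← List.append_assoc, List.take_append_of_le_length, hl.fR a]
  rw [List.length_append, hl.Rl]
  have := dcd_len hl a
  omega

private lemma dcd_at (hl : Lv b m R c d f) (hx : Cd m R c d f z x) (k : ℕ) : win z (bp f x k) m = R := by
  have h1 := congrArg (List.take m) (hx.at_ k)
  rw [win_take z _ (Nat.le_succ m)] at h1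
  rw [h1, List.take_append_of_le_length (le_of_eq hl.Rl.symm), List.take_of_length_le (le_of_eq hl.Rl)]

theorem cd_win (hl : Lv b m R c d f) (hx : Cd m R c d f z x) (k n : ℕ) :
    win z (bp f x k) (((lwin x k n).flatMap f).length + m) = (lwin x k n).flatMap f ++ R := by
  have h1 := hx.rd (k + n)
  rw [bp_add, win_add, lwin_add, List.flatMap_append] at h1
  have h2 := (List.append_inj h1 (by simp [bp])).2
  rw [Nat.zero_add, Nat.zero_add] at h2
  rw [win_add, h2, ← bp_add, dcd_at hl hx]

private lemma dcd_ind (hl : Lv b m R c d f) (hx : Cd m R c d f z x) (u : List Bool) :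
    ∀ k, win z (bp f x k) ((u.flatMap f).length + m) = u.flatMap f ++ R → lwin x k u.length = u := by
  induction u with
  | nil => intro k _; simp
  | cons a u ih =>
    intro k hk
    have hlen := dcd_len hl a
    have hL : ((a :: u).flatMap f).length = (f a).length + (u.flatMap f).length := by
      rw [List.flatMap_cons, List.length_append]
    have h1 := congrArg (List.take (m + 1)) hk
    rw [lv_next hl a u, win_take z _ (by rw [hL]; omega), hx.at_ k] at h1
    have h2 : (if x k then d else c) = (if a then d else c) := by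
      have := List.append_cancel_left h1
      simpa using this
    have h3 : x k = a := by
      have hcd := hl.cd
      rcases hxk : x k with _ | _ <;> rcases a with _ | _ <;> simp [hxk] at h2 ⊢
      · exact hcd h2
      · exact hcd h2.symm
    have h4 := congrArg (List.drop (f a).length) hk
    rw [win_drop z _ (by rw [hL]; omega), List.flatMap_cons, List.append_assoc, List.drop_left,
      List.length_append] at h4
    have h5 : (f a).length + (u.flatMap f).length + m - (f a).length = (u.flatMap f).length + m := by omega
    have h6 : bp f x k + (f a).length = bp f x (k + 1) := by rw [bp_succ, h3]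
    rw [h5, h6] at h4
    rw [List.length_cons, lwin_succ', h3, ih (k + 1) h4]

theorem cd_dec (hl : Lv b m R c d f) (hx : Cd m R c d f z x) {i : ℕ} {u : List Bool}
    (hu : win z i ((u.flatMap f).length + m) = u.flatMap f ++ R) :
    ∃ k, i = bp f x k ∧ lwin x k u.length = u := by
  obtain ⟨t, ht⟩ := lv_pre hl u
  have h1 := congrArg (List.take m) hu
  rw [win_take z _ (by omega), ht, List.take_append_of_le_length (le_of_eq hl.Rl.symm),
    List.take_of_length_le (le_of_eq hl.Rl)] at h1
  obtain ⟨k, rfl⟩ := hx.all i h1
  exact ⟨k, rfl, dcd_ind hl hx u k hu⟩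

end Pool.Agent.H1.DP
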