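import Mathlib
import Pool.Agent.H2.MC.DioF

set_option autoImplicit false

/-!
# Module Fin4 (130 lines): the final inequality, abstract form

PROOF. This is `final_fine` of `H2/MC/DioF.lean` (read it, and copy its arithmetic) with `core_fine` replaced by the hypothesis `hΦ`; `N` is not
needed. `η = (1-c)(2-κ(1+c))/4 > 0`, `ε1 = lam η / 12`, `C2`, `l0` from `hΦ ε1`. Take `n ≥ n0` from `h` with `n0` so large that
`3 < n0 η`, `2 (C2 + lam η / 2 - log ε0) < n0 (lam η)` and `l0 ≤ η n0`, `l0 ≤ n0`; put `l = n - d`.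
CASE 1 `(1+c)(i0+j0) - (1-c) l ≤ -(η n)`: then `η n ≤ (1-c) l ≤ l`, so `l0 ≤ l`, and `hΦ` at `(i0, j0, l)` gives the value
`≤ exp (C2 - lam η n + 2 ε1 (3 n + 3)) < ε0` (`i0 + j0 ≤ k`, `T + k ≤ κ n + 3 ≤ 2 n + 3`, `l ≤ n`).
CASE 2 otherwise: `(1+c)(i+j) - (1-c) n ≤ -(η n)` (copy `hX`), and `hΦ` at `(i, j, n)`.
-/

namespace Pool.Agent.H1.DP

open Filter Pool.Agent.H2.MC

theorem fin4 {b a : ℕ → ℕ} {lam c κ : ℝ} (hlam : 0 < lam) (hc0 : 0 ≤ c) (hc1 : c < 1) (hκ : κ < 2 / (1 + c))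
    {Φ : ℕ → ℝ}
    (hΦ : ∀ ε1 : ℝ, 0 < ε1 → ∃ (C2 : ℝ) (l0 : ℕ), ∀ i j l : ℕ, l0 ≤ l → win b i l = mir a j l → ∃ q : ℕ, 0 < q ∧
      Φ q ≤ Real.exp (C2 + lam * ((1 + c) * ((i : ℝ) + j) - (1 - c) * l) + 2 * ε1 * ((i : ℝ) + j + l)))
    (h : ∃ᶠ n : ℕ in atTop, ∃ k d T i0 j0 i j : ℕ, (T : ℝ) + 2 / (1 - c) * k ≤ κ * n + 3 ∧ i0 + j0 ≤ k ∧
      win b i0 (n - d) = mir a j0 (n - d) ∧ win b i n = mir a j n ∧ i + j + d ≤ i0 + j0 + T) :
    ∀ ε0 : ℝ, 0 < ε0 → ∃ q : ℕ, 0 < q ∧ Φ q < ε0 := by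
  intro ε0 hε0
  have h1c : 0 < 1 - c := by linarith
  have h1c' : 0 < 1 + c := by linarith
  have hκ2 : κ * (1 + c) < 2 := by rwa [lt_div_iff₀ h1c'] at hκ
  have hκlt : κ < 2 := by
    refine hκ.trans_le ?_
    rw [div_le_iff₀ h1c']
    linarith
  set η : ℝ := (1 - c) * (2 - κ * (1 + c)) / 4 with hη
  have hη0 : 0 < η := by
    rw [hη]
    have : 0 < (1 - c) * (2 - κ * (1 + c)) := mul_pos h1c (by linarith)
    linarith
  set ε1 : ℝ := lam * η / 12 with hε1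
  have hε1pos : 0 < ε1 := by positivity
  obtain ⟨C2, l0, hC⟩ := hΦ ε1 hε1pos
  have hle : 0 < lam * η := by positivity
  obtain ⟨n0, hn0⟩ := exists_nat_gt (max (max ((l0 : ℝ) / η) (3 / η))
    (max (2 * (C2 + lam * η / 2 - Real.log ε0) / (lam * η)) (l0 : ℝ)))
  have hn1 : (l0 : ℝ) < n0 * η := by
    have := ((le_max_left _ _).trans (le_max_left _ _)).trans_lt hn0
    rwa [div_lt_iff₀ hη0] at this
  have hn2 : 3 < n0 * η := by
    have := ((le_max_right _ _).trans (le_max_left _ _)).trans_lt hn0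
    rwa [div_lt_iff₀ hη0] at this
  have hn3 : 2 * (C2 + lam * η / 2 - Real.log ε0) < n0 * (lam * η) := by
    have := ((le_max_left _ _).trans (le_max_right _ _)).trans_lt hn0
    rwa [div_lt_iff₀ hle] at this
  have hn4 : (l0 : ℝ) < n0 := ((le_max_right _ _).trans (le_max_right _ _)).trans_lt hn0
  obtain ⟨n, ⟨k, d, T, i0, j0, i, j, h1, h2, h3, h4, h5⟩, hn⟩ :=
    (h.and_eventually (eventually_ge_atTop n0)).exists
  have hnn : (n0 : ℝ) ≤ n := by exact_mod_cast hn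
  have hN0 := Nat.cast_nonneg (α := ℝ) n
  have hT0 := Nat.cast_nonneg (α := ℝ) T
  have hk0 := Nat.cast_nonneg (α := ℝ) k
  have h2' : (i0 : ℝ) + j0 ≤ k := by exact_mod_cast h2
  have h5' : (i : ℝ) + j + d ≤ i0 + j0 + T := by exact_mod_cast h5
  obtain ⟨l, hl⟩ : ∃ l, l = n - d := ⟨_, rfl⟩
  rw [← hl] at h3
  have hld : (n : ℝ) - l ≤ d := by
    have : n ≤ d + l := by omega
    have : (n : ℝ) ≤ d + l := by exact_mod_cast this
    linarith
  have hln : (l : ℝ) ≤ n := by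
    have : l ≤ n := by omega
    exact_mod_cast this
  have hl0 := Nat.cast_nonneg (α := ℝ) l
  have h1' : (1 - c) * T + 2 * k ≤ (1 - c) * (κ * n + 3) := by
    have := mul_le_mul_of_nonneg_left h1 h1c.le
    have e : (1 - c) * ((T : ℝ) + 2 / (1 - c) * k) = (1 - c) * T + 2 * k := by
      field_simp
    linarith
  have hkT : (T : ℝ) + k ≤ κ * n + 3 := by
    have h6 : (k : ℝ) ≤ 2 / (1 - c) * k := by
      have : (1 : ℝ) ≤ 2 / (1 - c) := by
        rw [le_div_iff₀ h1c]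
        linarith
      nlinarith
    linarith
  have hκn : κ * n ≤ 2 * n := mul_le_mul_of_nonneg_right hκlt.le hN0
  have hnη : (n0 : ℝ) * η ≤ n * η := mul_le_mul_of_nonneg_right hnn hη0.le
  have hnlη : (n0 : ℝ) * (lam * η) ≤ n * (lam * η) := mul_le_mul_of_nonneg_right hnn hle.le
  have key : ∀ X : ℝ, X < Real.log ε0 → ∀ q : ℕ, Φ q ≤ Real.exp X → Φ q < ε0 := by
    intro X hX q hq
    calc Φ q ≤ Real.exp X := hq
      _ < Real.exp (Real.log ε0) := Real.exp_lt_exp.mpr hX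
      _ = ε0 := Real.exp_log hε0
  by_cases hcase : (1 + c) * ((i0 : ℝ) + j0) - (1 - c) * l ≤ -(η * n)
  · have hll : l0 ≤ l := by
      have h7 : 0 ≤ (1 + c) * ((i0 : ℝ) + j0) := by positivity
      have h8 : (1 - c) * (l : ℝ) ≤ l := by nlinarith
      have h6 : (l0 : ℝ) ≤ l := by linarith
      exact_mod_cast h6
    obtain ⟨q, hq0, hq⟩ := hC i0 j0 l hll h3
    refine ⟨q, hq0, key _ ?_ q hq⟩
    have h6 := mul_le_mul_of_nonneg_left hcase hlam.le
    have h7 : 2 * ε1 * ((i0 : ℝ) + j0 + l) ≤ 2 * ε1 * (3 * n + 3) :=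
      mul_le_mul_of_nonneg_left (by linarith) (by positivity)
    have h8 : 2 * ε1 * (3 * n + 3) = lam * η * n / 2 + lam * η / 2 := by rw [hε1]; ring
    linarith
  · push Not at hcase
    have hX : (1 + c) * ((i : ℝ) + j) - (1 - c) * n ≤ -(η * n) := by
      have g1' : (1 + c) * ((i : ℝ) + j) - (1 - c) * n
          ≤ (1 + c) * (((i0 : ℝ) + j0) + T + l) - 2 * n := by
        have : (i : ℝ) + j ≤ (i0 + j0) + T - n + l := by linarith
        nlinarith
      have g2 : (1 - c) * ((1 + c) * (((i0 : ℝ) + j0) + T + l) - 2 * n)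
          ≤ (1 + c) * (2 * ((i0 : ℝ) + j0) + (1 - c) * T + η * n) - 2 * (1 - c) * n := by
        have : (1 - c) * (l : ℝ) ≤ (1 + c) * ((i0 : ℝ) + j0) + η * n := by linarith
        have := mul_le_mul_of_nonneg_left this h1c'.le
        nlinarith
      have g3 : (1 + c) * (2 * ((i0 : ℝ) + j0) + (1 - c) * T + η * n)
          ≤ (1 + c) * ((1 - c) * (κ * n + 3) + η * n) := by
        apply mul_le_mul_of_nonneg_left _ h1c'.le
        linarith
      have g4 : (1 + c) * ((1 - c) * (κ * n + 3) + η * n) - 2 * (1 - c) * n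
          = -(4 * η) * n + (1 + c) * η * n + 3 * (1 + c) * (1 - c) := by
        rw [hη]; ring
      have g5 : -(4 * η) * n + (1 + c) * η * n + 3 * (1 + c) * (1 - c)
          ≤ (1 - c) * -(η * n) := by
        have g6 : (0 : ℝ) ≤ n * η - 3 := by linarith
        have g7 : 0 ≤ (1 + c) * (1 - c) := by positivity
        nlinarith [mul_nonneg h1c'.le g6, mul_nonneg g7 g6, mul_nonneg h1c.le g6]
      have g8 : (1 - c) * ((1 + c) * ((i : ℝ) + j) - (1 - c) * n) ≤ (1 - c) * -(η * n) := by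
        have := mul_le_mul_of_nonneg_left g1' h1c.le
        linarith
      exact le_of_mul_le_mul_left g8 h1c
    have hln0 : l0 ≤ n := by
      have h6 : (l0 : ℝ) ≤ n := by linarith
      exact_mod_cast h6
    obtain ⟨q, hq0, hq⟩ := hC i j n hln0 h4
    refine ⟨q, hq0, key _ ?_ q hq⟩
    have h6 := mul_le_mul_of_nonneg_left hX hlam.le
    have h7 : 2 * ε1 * ((i : ℝ) + j + n) ≤ 2 * ε1 * (3 * n + 3) :=
      mul_le_mul_of_nonneg_left (by linarith) (by positivity)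
    have h8 : 2 * ε1 * (3 * n + 3) = lam * η * n / 2 + lam * η / 2 := by rw [hε1]; ring
    linarith

end Pool.Agent.H1.DP
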