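import Mathlib
import Pool.Agent.H1.DP.Cat

set_option autoImplicit false

/-!
# Module Lan (90 lines): the languages of the auxiliary sequences

`MR x y`: for all `n i`, `(lwin x i n).reverse` and `(lwin y i n).reverse` occur infinitely often in `x`.
PROOFS. `L = |f false| + |f true|` bounds the lengths of the blocks (and of the reversed blocks).
* `occ_x`: `lwin x t k` occurs infinitely often in `x`: `(lwin x t k).reverse` occurs at some `p` (`Frequently.exists`), so
  `(lwin x p k).reverse = lwin x t k` occurs infinitely often. `occ_y`: the same for `lwin y t k` (its reverse occurs at some `p` of `x`).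
  `occ_ry`: `(lwin y t k).reverse` occurs infinitely often in `x`: directly.
* `lan_a`: `cat_cover` for `cat f x`: `(lwin x t k).flatMap f = p1 ++ win (cat f x) i n ++ p2`; `occ_x` and `rec_of_occ` (length of a window
  is `n`).
* `lan_b`: `cat_cover` for the blocks `rv f` and `y`: `(lwin y t k).flatMap (rv f) = p1 ++ win (cat (rv f) y) j n ++ p2`; reversing (with
  `s.flatMap (rv f) = (s.reverse.flatMap f).reverse`, see `flatMap_rev` in `H17/EP/WtM`) `(lwin y t k).reverse.flatMap f =
  p2.reverse ++ mir (cat (rv f) y) j n ++ p1.reverse`; `occ_ry`, `rec_of_occ`.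
* `lan_c`: as `lan_a` with `y` and `occ_y`.
* `lan_rec`: `Rec b a n = RecB b n ∪ RecA a n` (`Rec_eq_union`); a word of `RecA` is some `mir (cat (rv f) y) j n`, so `lan_b`.
* `lan_tr`: `Tr = Occ \ Rec`; every word of `Occ` is a window of `cat f x` (`lan_a`) or a mirror (`lan_b`).
-/

namespace Pool.Agent.H1.DP

open Filter Pool.Agent.H2.MC Pool.Agent.H17.EP

variable {f : Bool → List ℕ} {x y : ℕ → Bool}

private lemma Lan_occ_x (H : MR x y) (t k : ℕ) :
    ∃ᶠ p in atTop, lwin x p (lwin x t k).length = lwin x t k := by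
  obtain ⟨p, hp⟩ := (H k t).1.exists
  have h1 := (H k p).1
  rw [hp, List.reverse_reverse] at h1
  rw [lwin_length]
  exact h1

private lemma Lan_occ_y (H : MR x y) (t k : ℕ) :
    ∃ᶠ p in atTop, lwin x p (lwin y t k).length = lwin y t k := by
  obtain ⟨p, hp⟩ := (H k t).2.exists
  have h1 := (H k p).1
  rw [hp, List.reverse_reverse] at h1
  rw [lwin_length]
  exact h1

private lemma Lan_occ_ry (H : MR x y) (t k : ℕ) :
    ∃ᶠ p in atTop, lwin x p (lwin y t k).reverse.length = (lwin y t k).reverse := by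
  rw [List.length_reverse, lwin_length]
  exact (H k t).2

private lemma Lan_len (f : Bool → List ℕ) (a : Bool) : (f a).length ≤ (f false).length + (f true).length := by
  cases a
  · omega
  · omega

private lemma Lan_rev (f : Bool → List ℕ) (s : List Bool) :
    (s.flatMap (rv f)).reverse = s.reverse.flatMap f := by
  have h1 := flatMap_rev (f := f) s.reverse
  rw [List.reverse_reverse] at h1
  have h2 : s.flatMap (rv f) = s.flatMap (fun z => (f z).reverse) := rfl
  rw [h2, h1, List.reverse_reverse]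

theorem lan_a (hf : ∀ a, f a ≠ []) (H : MR x y) (i n : ℕ) : win (cat f x) i n ∈ RecB (cat f x) n := by
  obtain ⟨t, k, p1, p2, h1, -, -, -⟩ := cat_cover hf (Lan_len f) x i n
  have h2 := rec_of_occ hf (Lan_occ_x H t k) h1
  rwa [win_length] at h2

theorem lan_b (hf : ∀ a, f a ≠ []) (H : MR x y) (j n : ℕ) : mir (cat (rv f) y) j n ∈ RecB (cat f x) n := by
  have hrf : ∀ a, rv f a ≠ [] := fun a => by
    unfold rv
    simpa using hf a
  obtain ⟨t, k, p1, p2, h1, -, -, -⟩ := cat_cover hrf (Lan_len (rv f)) y j n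
  have h2 := congrArg List.reverse h1
  rw [Lan_rev, List.reverse_append, List.reverse_append, ← List.append_assoc] at h2
  have h3 := rec_of_occ hf (Lan_occ_ry H t k) (w := mir (cat (rv f) y) j n) h2
  rwa [mir_length] at h3

theorem lan_c (hf : ∀ a, f a ≠ []) (H : MR x y) (j n : ℕ) : win (cat f y) j n ∈ RecB (cat f x) n := by
  obtain ⟨t, k, p1, p2, h1, -, -, -⟩ := cat_cover hf (Lan_len f) y j n
  have h2 := rec_of_occ hf (Lan_occ_y H t k) h1
  rwa [win_length] at h2

theorem lan_rec (hf : ∀ a, f a ≠ []) (H : MR x y) (n : ℕ) : Rec (cat f x) (cat (rv f) y) n = RecB (cat f x) n := by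
  rw [Rec_eq_union]
  refine Set.union_eq_left.2 fun w hw => ?_
  have hw' : ∃ᶠ j in atTop, mir (cat (rv f) y) j n = w := hw
  obtain ⟨j, hj⟩ := hw'.exists
  rw [← hj]
  exact lan_b hf H j n

theorem lan_tr (hf : ∀ a, f a ≠ []) (H : MR x y) (n : ℕ) : Tr (cat f x) (cat (rv f) y) n = ∅ := by
  unfold Tr
  rw [Set.sdiff_eq_empty, lan_rec hf H]
  rintro w (⟨i, rfl⟩ | ⟨j, rfl⟩)
  · exact lan_a hf H i n
  · exact lan_b hf H j n

end Pool.Agent.H1.DP
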