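import Mathlib
import Pool.Agent.H1.DP.Defs
import Pool.Agent.H1.DC.Clm
import Pool.Agent.H1.DC.Cnt
import Pool.Agent.H1.DC.RetM
import Pool.Agent.H1.DC.SloD

set_option autoImplicit false

/-!
# Module LvE (170 lines): return words at arbitrarily large bispecial scales of slope one

PROOFS.
* `slope1`: if `F (n + 1) ≥ F n + 2` for all `n ≥ N` then `F n ≥ 2 (n - N)` for `n ≥ N`, so `2 (n - N) ≤ κ n` for infinitely many `n`, impossible for
  `n > 2 N / (2 - κ)`.
* `lv_ex`: `slope1` with `F n = (RecB b n).ncard` (`recB_slope` gives a slope-one scale `m0 ≥ N0`), `lev_of_slope`: `Lev b m0 R0 c d`; `climbD`: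
  `Lev b m R c d`, `Bis b m R`, `m = C.length + m0`, `R = C ++ R0`. `ret_ex` for `c` and `d`: `Ret b m R c A U`, `Ret b m R d B V`; `cnt`:
  `A + B = ncard + 1`. Put `f false = U.take A`, `f true = V.take B`. As in `sd_ex` (`H54/TM/CaB.lean`): `|U| = A + m` (word of `RecB`), `U.take A ++ R = U`
  (`List.take_append_drop`, `Ret.dr`), `(f false).length = A > 0`, `R.length = m`, the same for `V`. `fR`: `Ret.t1`. `two`: `Lev.two`. `ret`, `no`: cases
  on `a` (`Ret.ret`, `Ret.no`). `R ∈ RecB b m`: `(lang_RecB hM).pre` and `Lev.rc`.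
  `last`: Let `x ≠ y` with `x :: R, y :: R ∈ RecB b (m + 1)` (`Bis`). CLAIM: if `x :: R ∈ RecB b (m + 1)` then `x` is the last letter of `U.take A` or of
  `V.take B`. Then if both last letters were equal, `x = y`. Proof of the claim: `in_late`: `z = fun k => b (T + k)` with `In b (m + 1) z`; let `i1` be an
  occurrence of `R` in `z`; `x :: R` occurs in `z` at some `i ≥ i1`, so `R` occurs at `i + 1 > i1`; let `i' ≤ i` be the last occurrence
  of `R` before `i + 1` (`Nat.findGreatest`); `win z i' (m + 1) = R ++ [c]` or `R ++ [d]` (`Lev.two`), say `c`: then `win z i' (A + m) = U` and `R` occurs at `i' + A`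
  (`ret_next`), none in between (`Ret.no`), so `i' + A = i + 1` and `x = z i = z (i' + (A - 1))` is the letter `A - 1` of `U`.
-/

namespace Pool.Agent.H1.DP

open Filter Pool.Agent.H2.MC Pool.Agent.H1.DC

lemma slope1 {F : ℕ → ℕ} {κ : ℝ} (hκ : κ < 2) (h : ∃ᶠ n : ℕ in atTop, (F n : ℝ) ≤ κ * n) :
    ∃ᶠ n : ℕ in atTop, F (n + 1) ≤ F n + 1 := by
  by_contra hcon
  rw [Filter.not_frequently] at hcon
  obtain ⟨N, hN⟩ := Filter.eventually_atTop.1 hcon
  have h1 : ∀ k : ℕ, 2 * k ≤ F (N + k) := by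
    intro k
    induction k with
    | zero => omega
    | succ k ih =>
      have h2 := hN (N + k) (by omega)
      have h3 : N + (k + 1) = N + k + 1 := by omega
      rw [h3]
      omega
  obtain ⟨K, hK⟩ := exists_nat_gt (2 * (N : ℝ) / (2 - κ))
  obtain ⟨n, hn1, hn2⟩ := Filter.frequently_atTop.1 h (max N K)
  have hnN : N ≤ n := le_trans (le_max_left _ _) hn1
  have hnK : K ≤ n := le_trans (le_max_right _ _) hn1
  obtain ⟨k, rfl⟩ := Nat.exists_eq_add_of_le hnN
  have h4 : (2 * k : ℝ) ≤ F (N + k) := by exact_mod_cast h1 k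
  have h5 : (K : ℝ) ≤ ((N + k : ℕ) : ℝ) := by exact_mod_cast hnK
  rw [div_lt_iff₀ (by linarith)] at hK
  push_cast at h5 hn2
  nlinarith

private lemma LvE_len {b : ℕ → ℕ} {n : ℕ} {w : List ℕ} (h : w ∈ RecB b n) : w.length = n := by
  obtain ⟨i, hi⟩ := Filter.Frequently.exists h
  rw [← hi, win_length]

/-- the letter before the closing `R` -/
private lemma LvE_last {b : ℕ → ℕ} {m e A x s : ℕ} {R U : List ℕ} (hU : Ret b m R e A U) {z : ℕ → ℕ}
    (hz : H1.DC.In b (m + 1) z) {i : ℕ} (hi : win z i (m + 1) = R ++ [e]) (hs : s < A)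
    (hw : x :: R = (U.drop s).take (m + 1)) : (U.take A).getLast? = some x := by
  have hUw := hU.ret z hz i hi
  rw [← hUw, win_drop z i (by omega : s ≤ A + m), win_take z _ (by omega : m + 1 ≤ A + m - s), win_succ'] at hw
  have h1 := (List.cons.inj hw)
  have h2 : ¬ s + 1 < A := by
    intro hlt
    exact hU.no z hz i hi (s + 1) (by omega) hlt (by rw [← Nat.add_assoc]; exact h1.2.symm)
  have h3 : A = s + 1 := by omega
  rw [← hUw, win_take z i (Nat.le_add_right A m), h3, win_succ, List.getLast?_append, h1.1]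
  simp

private lemma LvE_occ {b : ℕ → ℕ} {M : ℕ} (hM : ∀ n, b n ≤ M) (m : ℕ) :
    ∃ z : ℕ → ℕ, H1.DC.In b (m + 1) z ∧ ∀ w ∈ RecB b (m + 1), ∃ i, win z i (m + 1) = w := by
  obtain ⟨T, hTT⟩ := in_late hM (m + 1)
  refine ⟨fun k => b (T + k), hTT T le_rfl, ?_⟩
  intro w hw
  obtain ⟨i, hi, hwi⟩ := (Filter.frequently_atTop.mp hw) T
  obtain ⟨i0, rfl⟩ := Nat.exists_eq_add_of_le hi
  exact ⟨i0, by rw [win_sh]; exact hwi⟩

private lemma LvE_lv {b : ℕ → ℕ} {M : ℕ} (hM : ∀ n, b n ≤ M) {m c d : ℕ} {R : List ℕ} (h : Lev b m R c d)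
    (hbis : Bis b m R) : ∃ f : Bool → List ℕ, Lv b m R c d f := by
  obtain ⟨A, U, hU⟩ := ret_ex hM h h.rc
  obtain ⟨B, V, hV⟩ := ret_ex hM h h.rd
  have hcnt := cnt hM h hU hV hbis
  have hUl := LvE_len hU.mem
  have hVl := LvE_len hV.mem
  have hRl : R.length = m := by
    rw [← hU.tk, List.length_take, hUl]
    omega
  have hUe : U.take A ++ R = U := by
    have h1 := List.take_append_drop A U
    rw [hU.dr] at h1
    exact h1
  have hVe : V.take B ++ R = V := by
    have h1 := List.take_append_drop B V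
    rw [hV.dr] at h1
    exact h1
  have hlA : (U.take A).length = A := by rw [List.length_take, hUl]; omega
  have hlB : (V.take B).length = B := by rw [List.length_take, hVl]; omega
  refine ⟨fun a => if a then V.take B else U.take A, hRl, h.cd, ?_, ?_, h.two, ?_, ?_, ?_, ?_⟩
  · intro a hcon
    have h1 := congrArg List.length hcon
    have hA := hU.pos
    have hB := hV.pos
    cases a
    · simp only [Bool.false_eq_true, if_false] at h1
      rw [hlA, List.length_nil] at h1
      omega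
    · simp only [if_true] at h1
      rw [hlB, List.length_nil] at h1
      omega
  · intro a
    cases a
    · simp only [Bool.false_eq_true, if_false]
      rw [hUe, hU.t1]
    · simp only [if_true]
      rw [hVe, hV.t1]
  · intro z hz i a hi
    cases a
    · simp only [Bool.false_eq_true, if_false] at hi ⊢
      rw [hlA, hUe]
      exact hU.ret z hz i hi
    · simp only [if_true] at hi ⊢
      rw [hlB, hVe]
      exact hV.ret z hz i hi
  · intro z hz i a hi t ht0 ht1
    cases a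
    · simp only [Bool.false_eq_true, if_false] at hi ht1
      rw [hlA] at ht1
      exact hU.no z hz i hi t ht0 ht1
    · simp only [if_true] at hi ht1
      rw [hlB] at ht1
      exact hV.no z hz i hi t ht0 ht1
  · simp only [Bool.false_eq_true, if_false, if_true]
    intro hcon
    obtain ⟨z, hz, hocc⟩ := LvE_occ hM m
    obtain ⟨i1, h1⟩ := hocc _ h.rc
    obtain ⟨i2, h2⟩ := hocc _ h.rd
    have hkey : ∀ x : ℕ, x :: R ∈ RecB b (m + 1) → (U.take A).getLast? = some x := by
      intro x hx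
      rcases last_R hM h hU hV hx with ⟨s, hs, hw⟩ | ⟨s, hs, hw⟩
      · exact LvE_last hU hz h1 hs hw
      · rw [hcon]; exact LvE_last hV hz h2 hs hw
    obtain ⟨x, y, hxy, hx, hy⟩ := hbis
    have h3 := hkey x hx
    rw [hkey y hy] at h3
    exact hxy (Option.some.inj h3).symm
  · simp only [Bool.false_eq_true, if_false, if_true]
    rw [hlA, hlB]
    exact hcnt

theorem lv_ex {b : ℕ → ℕ} {M : ℕ} (hM : ∀ n, b n ≤ M) (hb : ¬ EvPer b) {κ : ℝ} (hκ : κ < 2)
    (h : ∃ᶠ n : ℕ in atTop, ((RecB b n).ncard : ℝ) ≤ κ * n) (N0 : ℕ) :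
    ∃ (m : ℕ) (R : List ℕ) (c d : ℕ) (f : Bool → List ℕ), N0 ≤ m ∧ R ∈ RecB b m ∧ Lv b m R c d f := by
  obtain ⟨m0, hm0, hs⟩ := Filter.frequently_atTop.1 (slope1 hκ h) N0
  obtain ⟨R0, c, d, hL0⟩ := lev_of_slope hM hb hs
  obtain ⟨C, hL, hB, -⟩ := climbD hM hL0
  obtain ⟨f, hf⟩ := LvE_lv hM hL hB
  exact ⟨C.length + m0, C ++ R0, c, d, f, by omega, (lang_RecB hM).pre _ _ c hL.rc, hf⟩

end Pool.Agent.H1.DP
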