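import Mathlib

/-!
# Module NepA (90 lines): two words which do not commute are a code, also for infinite words

PROOF of `two_code`. Induction on `n` (all other variables general); by contradiction or directly. Put `N = |f false| + |f true|`.
We may assume `|f a| ≤ |f (!a)|` (otherwise use the same argument with `a` replaced by `!a` and `u`, `v` exchanged; `!!a = a`; so prove first a
lemma for the case `|f a| ≤ |f (!a)|` from the induction hypothesis for `n - 1`, and apply it twice). Both `f a` and `f (!a)` are prefixes
of `W` (`(a :: u).flatMap f = f a ++ u.flatMap f`), so `f (!a) = f a ++ w` (`List.prefix_of_prefix_length_le`). If `w = []` the two words are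
equal and commute. Otherwise let `W = f a ++ W1`; `u.flatMap f <+: W1`, and `w ++ v.flatMap f <+: W1` (`List.prefix_append_right_inj`).
Let `g b = if b = a then f a else w` and `ρ b = if b = a then [a] else [a, !a]`: then `(ρ b).flatMap g = f b` for both `b`
(`f (!a) = f a ++ w`), hence `(s.flatMap ρ).flatMap g = s.flatMap f` for every list `s` (induction, or `List.flatMap_assoc`). From
`N ≤ |(a :: u).flatMap f| = |f a| + |u.flatMap f|` we get `|f (!a)| ≤ |u.flatMap f|`, so `u ≠ []`, and `u.flatMap ρ = a :: u2` (every `ρ b`
begins with `a`); `(a :: u2).flatMap g = u.flatMap f <+: W1` has length `≥ |f (!a)| = |f a| + |w| = |g false| + |g true|`. And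
`((!a) :: v.flatMap ρ).flatMap g = w ++ v.flatMap f <+: W1`; from `N ≤ |f (!a)| + |v.flatMap f|` we get `|f a| ≤ |v.flatMap f|`, so its length is
`≥ |w| + |f a|`. As `|g false| + |g true| = |f (!a)| < N`, the induction hypothesis for `g`, `W1`, `a` gives that `f a` and `w` commute
(`g false ++ g true = g true ++ g false`, cases on `a`); then `f a ++ f (!a) = f a ++ f a ++ w = f a ++ w ++ f a = f (!a) ++ f a`.
-/

set_option autoImplicit false

namespace Pool.Agent.H1.DP

private theorem nepA_core (n : ℕ)
    (ih : ∀ (f : Bool → List ℕ) (a : Bool) (u v : List Bool) (W : List ℕ),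
      (f false).length + (f true).length ≤ n → (∀ a, f a ≠ []) → (a :: u).flatMap f <+: W →
      ((!a) :: v).flatMap f <+: W → (f false).length + (f true).length ≤ ((a :: u).flatMap f).length →
      (f false).length + (f true).length ≤ (((!a) :: v).flatMap f).length →
      f false ++ f true = f true ++ f false)
    (f : Bool → List ℕ) (a : Bool) (u v : List Bool) (W : List ℕ)
    (hn : (f false).length + (f true).length ≤ n + 1) (hf : ∀ a, f a ≠ []) (h1 : (a :: u).flatMap f <+: W)
    (h2 : ((!a) :: v).flatMap f <+: W) (h3 : (f false).length + (f true).length ≤ ((a :: u).flatMap f).length)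
    (h4 : (f false).length + (f true).length ≤ (((!a) :: v).flatMap f).length)
    (hle : (f a).length ≤ (f (!a)).length) : f false ++ f true = f true ++ f false := by
  have hN : (f false).length + (f true).length = (f a).length + (f (!a)).length := by
    cases a <;> simp [Nat.add_comm]
  rw [List.flatMap_cons] at h1 h2 h3 h4
  rw [hN] at hn h3 h4
  rw [List.length_append] at h3 h4
  have hfa : f a <+: W := (List.prefix_append _ _).trans h1
  have hfb : f (!a) <+: W := (List.prefix_append _ _).trans h2
  obtain ⟨w, hw⟩ := List.prefix_of_prefix_length_le hfa hfb hle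
  have hfin : f a ++ w = w ++ f a → f false ++ f true = f true ++ f false := by
    intro hc
    have h5 : f a ++ f (!a) = f (!a) ++ f a := by
      rw [← hw, List.append_assoc, ← hc]
    cases a
    · exact h5
    · exact h5.symm
  by_cases hw0 : w = []
  · apply hfin
    simp [hw0]
  obtain ⟨W1, hW1⟩ := hfa
  have p1 : u.flatMap f <+: W1 := by
    rw [← hW1] at h1
    exact (List.prefix_append_right_inj _).1 h1
  have p2 : w ++ v.flatMap f <+: W1 := by
    rw [← hW1, ← hw, List.append_assoc] at h2
    exact (List.prefix_append_right_inj _).1 h2
  set g : Bool → List ℕ := fun b => if b = a then f a else w with hg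
  set ρ : Bool → List Bool := fun b => if b = a then [a] else [a, !a] with hρ
  have ga : g a = f a := by simp [hg]
  have gb : g (!a) = w := by simp [hg]
  have ra : ρ a = [a] := by simp [hρ]
  have rb : ρ (!a) = [a, !a] := by simp [hρ]
  have hcase : ∀ b, b = a ∨ b = !a := by
    intro b; cases a <;> cases b <;> simp
  have rg : ∀ b, (ρ b).flatMap g = f b := by
    intro b
    rcases hcase b with rfl | rfl
    · rw [ra]; simp [ga]
    · rw [rb]; simp [ga, gb, hw]
  have sg : ∀ s : List Bool, (s.flatMap ρ).flatMap g = s.flatMap f := by
    intro s
    induction s with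
    | nil => rfl
    | cons b s ihs => rw [List.flatMap_cons, List.flatMap_append, rg, ihs, List.flatMap_cons]
  have hlw : (f (!a)).length = (f a).length + w.length := by rw [← hw, List.length_append]
  have hfa1 : 1 ≤ (f a).length := List.length_pos_iff.2 (hf a)
  have hfb1 : 1 ≤ (f (!a)).length := List.length_pos_iff.2 (hf _)
  have hgN : (g false).length + (g true).length = (f a).length + w.length := by
    have : (g false).length + (g true).length = (g a).length + (g (!a)).length := by
      cases a <;> simp [Nat.add_comm]
    rw [this, ga, gb]
  have hu : ∃ u2, u.flatMap ρ = a :: u2 := by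
    cases u with
    | nil =>
      exfalso
      simp only [List.flatMap_nil, List.length_nil] at h3
      omega
    | cons c u' =>
      rcases hcase c with rfl | rfl
      · exact ⟨u'.flatMap ρ, by rw [List.flatMap_cons, ra]; rfl⟩
      · exact ⟨(!a) :: u'.flatMap ρ, by rw [List.flatMap_cons, rb]; rfl⟩
  obtain ⟨u2, hu2⟩ := hu
  have key := ih g a u2 (v.flatMap ρ) W1 (by rw [hgN]; omega) (by
    intro b
    rcases hcase b with rfl | rfl
    · rw [ga]; exact hf _
    · rw [gb]; exact hw0) (by rw [← hu2, sg]; exact p1) (by
      rw [List.flatMap_cons, gb, sg]; exact p2) (by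
      rw [← hu2, sg, hgN]; omega) (by
      rw [List.flatMap_cons, gb, sg, hgN, List.length_append]; omega)
  apply hfin
  cases a
  · have e1 : g false = f false := ga
    have e2 : g true = w := gb
    rw [e1, e2] at key
    exact key
  · have e1 : g true = f true := ga
    have e2 : g false = w := gb
    rw [e1, e2] at key
    exact key.symm

theorem two_code (n : ℕ) : ∀ (f : Bool → List ℕ) (a : Bool) (u v : List Bool) (W : List ℕ),
    (f false).length + (f true).length ≤ n → (∀ a, f a ≠ []) → (a :: u).flatMap f <+: W →
    ((!a) :: v).flatMap f <+: W → (f false).length + (f true).length ≤ ((a :: u).flatMap f).length →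
    (f false).length + (f true).length ≤ (((!a) :: v).flatMap f).length →
    f false ++ f true = f true ++ f false := by
  induction n with
  | zero =>
    intro f a u v W hn hf _ _ _ _
    have := List.length_pos_iff.2 (hf true)
    omega
  | succ n ih =>
    intro f a u v W hn hf h1 h2 h3 h4
    rcases le_total (f a).length (f (!a)).length with hle | hle
    · exact nepA_core n ih f a u v W hn hf h1 h2 h3 h4 hle
    · exact nepA_core n ih f (!a) v u W hn hf h2 (by simpa using h1) h4 (by simpa using h3) (by simpa using hle)

end Pool.Agent.H1.DP
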