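import Mathlib
import Pool.Agent.H1.DP.Cat

set_option autoImplicit false

/-!
# Module NepB (100 lines): commuting blocks or a periodic coding give an eventually periodic concatenation

PROOFS.
* `cat_comm_evPer`: `f false` commutes with `f true` and with itself, so by induction `f false ++ u.flatMap f = u.flatMap f ++ f false` for
  every word `u`. Period `p = (f false).length > 0`, `N = 0`: for `n` take `K` with `n + p < bp f y K` (`le_bp`, `K = n + p + 1`) and
  `U = (lwin y 0 K).flatMap f`: `f false ++ U = U ++ f false`, so the letter `n + p` of `U` (left side: letter `n` of `U`; right side: letter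
  `n + p` of `U`) is its letter `n`; `cat_get`.
* `cat_evPer`: `y (n + q) = y n` for `n ≥ N`, `q > 0`. Let `P = ((lwin y N q).flatMap f).length > 0` (`bp_mono`), start `bp f y N`. For `n ≥ bp f y N`
  write `n = bp f y N + t`; take `K` with `t + P < ((lwin y N K).flatMap f).length` (`bp_add`, `le_bp`: `K = N + t + P + 1` is enough since
  `bp f y (N + K) ≥ N + K` and .. or use `flatMap_len` of WinL: `K ≤ ((lwin y N K).flatMap f).length`). `lwin y (N + q) K = lwin y N K` and
  `lwin y N (q + K) = lwin y N q ++ lwin y (N + q) K`, so `(lwin y N (q + K)).flatMap f = (lwin y N q).flatMap f ++ (lwin y N K).flatMap f`; by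
  `cat_blk` (with `n = q + K` and `n = K`) the letter `P + t` of the left side is `cat f y (bp f y N + P + t)` and it is the letter `t` of
  `(lwin y N K).flatMap f`, which is `cat f y (bp f y N + t)`.
-/

namespace Pool.Agent.H1.DP

open Filter Pool.Agent.H2.MC Pool.Agent.H17.EP

variable {f : Bool → List ℕ}

theorem cat_comm_evPer (hf : ∀ a, f a ≠ []) (hc : f false ++ f true = f true ++ f false) (y : ℕ → Bool) :
    EvPer (cat f y) := by
  have comm : ∀ u : List Bool, f false ++ u.flatMap f = u.flatMap f ++ f false := by
    intro u
    induction u with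
    | nil => simp
    | cons a u ih =>
      have h1 : f false ++ f a = f a ++ f false := by
        cases a with
        | false => rfl
        | true => exact hc
      rw [List.flatMap_cons, ← List.append_assoc, h1, List.append_assoc, ih, List.append_assoc]
  refine ⟨0, (f false).length, List.length_pos_iff.2 (hf false), fun n _ => ?_⟩
  have hlen : n + (f false).length < ((lwin y 0 (n + (f false).length + 1)).flatMap f).length :=
    le_bp hf y (n + (f false).length + 1)
  have hlen' : n < ((lwin y 0 (n + (f false).length + 1)).flatMap f).length :=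
    lt_of_le_of_lt (Nat.le_add_right _ _) hlen
  rw [cat_get hf y _ _ hlen, cat_get hf y _ _ hlen']
  have h2 := comm (lwin y 0 (n + (f false).length + 1))
  have h3 := congrArg (fun l : List ℕ => l[n + (f false).length]?) h2
  have h4 : (f false ++ (lwin y 0 (n + (f false).length + 1)).flatMap f)[n + (f false).length]? =
      ((lwin y 0 (n + (f false).length + 1)).flatMap f)[n]? := by
    rw [List.getElem?_append_right (Nat.le_add_left _ _), Nat.add_sub_cancel]
  have h5 : ((lwin y 0 (n + (f false).length + 1)).flatMap f ++ f false)[n + (f false).length]? =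
      ((lwin y 0 (n + (f false).length + 1)).flatMap f)[n + (f false).length]? :=
    List.getElem?_append_left hlen
  have h6 : ((lwin y 0 (n + (f false).length + 1)).flatMap f)[n]? =
      ((lwin y 0 (n + (f false).length + 1)).flatMap f)[n + (f false).length]? :=
    h4.symm.trans (h3.trans h5)
  rw [List.getElem?_eq_getElem hlen', List.getElem?_eq_getElem hlen] at h6
  exact (Option.some.inj h6).symm

theorem cat_evPer (hf : ∀ a, f a ≠ []) {y : ℕ → Bool} (h : EvPB y) : EvPer (cat f y) := by
  obtain ⟨N, q, hq, hy⟩ := h
  obtain ⟨A, hA⟩ : ∃ A, A = (lwin y N q).flatMap f := ⟨_, rfl⟩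
  have hP : 0 < A.length := by
    have h1 := bp_add f y N q
    have h2 := bp_mono hf y (Nat.lt_add_of_pos_right hq : N < N + q)
    rw [h1, ← hA] at h2
    omega
  refine ⟨bp f y N, A.length, hP, fun n hn => ?_⟩
  obtain ⟨t, rfl⟩ : ∃ t, n = bp f y N + t := ⟨n - bp f y N, by omega⟩
  obtain ⟨K, hK⟩ : ∃ K, K = t + 1 := ⟨_, rfl⟩
  obtain ⟨W, hW⟩ : ∃ W, W = (lwin y N K).flatMap f := ⟨_, rfl⟩
  have hWl : t < W.length := by
    have h1 := flatMap_len y f hf N K
    rw [← hW, hK] at h1
    omega
  have hshift : lwin y (N + q) K = lwin y N K := by
    unfold lwin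
    refine List.map_congr_left fun k _ => ?_
    have h1 := hy (N + k) (Nat.le_add_right _ _)
    rw [← h1]
    congr 1
    omega
  have h1 := cat_blk hf y N K
  have h2 := cat_blk hf y N (q + K)
  have h3 : (lwin y N (q + K)).flatMap f = A ++ W := by
    rw [lwin_add, List.flatMap_append, hshift, hA, hW]
  rw [← hW] at h1
  rw [h3] at h2
  have h4 := congrArg (fun l : List ℕ => l[t]?) h1
  have h5 := congrArg (fun l : List ℕ => l[A.length + t]?) h2
  have h6 : (win (cat f y) (bp f y N) W.length)[t]? = some (cat f y (bp f y N + t)) := by
    unfold win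
    rw [List.getElem?_map, List.getElem?_range hWl]
    rfl
  have h7 : (win (cat f y) (bp f y N) (A ++ W).length)[A.length + t]? =
      some (cat f y (bp f y N + (A.length + t))) := by
    unfold win
    rw [List.getElem?_map, List.getElem?_range (by rw [List.length_append]; omega)]
    rfl
  have h8 : (A ++ W)[A.length + t]? = W[t]? := by
    rw [List.getElem?_append_right (Nat.le_add_right _ _), Nat.add_sub_cancel_left]
  have h9 : some (cat f y (bp f y N + (A.length + t))) = some (cat f y (bp f y N + t)) := by
    rw [← h6, ← h7]
    exact h5.trans (h8.trans h4.symm)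
  have h10 := Option.some.inj h9
  rw [show bp f y N + t + A.length = bp f y N + (A.length + t) by omega]
  exact h10

end Pool.Agent.H1.DP
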