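import Mathlib
import Pool.Agent.H1.DP.NepA
import Pool.Agent.H1.DP.NepB

/-!
# Module NepC (140 lines): if the blocks do not commute and the concatenation is eventually periodic, the coding is eventually periodic

PROOF of `evPB_of_cat`. Let `z = cat f y`, `z (n + p) = z n` for `n ≥ N`, `p > 0`; so `z n = z n'` whenever `n, n' ≥ N`, `n ≡ n' mod p`
(induction). Among the `p + 1` positions `bp f y (N + i)`, `i = 0, …, p` (all `≥ N + i ≥ N` by `le_bp`), two are congruent mod `p`
(pigeonhole, `Finset.exists_ne_map_eq_of_card_lt_of_maps_to` or `Fintype.exists_ne_map_eq_of_card_lt` into `Fin p`): `k < k'` with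
`bp f y k ≡ bp f y k'`. CLAIM: `y (k + n) = y (k' + n)` for all `n` (strong induction on `n`). If it holds for all smaller indices then
`lwin y k n = lwin y k' n`, so by `bp_add` `bp f y (k + n) ≡ bp f y (k' + n) mod p`. Let `s = bp f y (k + n)`, `s' = bp f y (k' + n)`, both `≥ N`;
so `z (s + t) = z (s' + t)` for all `t`. Suppose `y (k + n) = a ≠ y (k' + n)`, so the latter is `!a`. Let `K = |f false| + |f true|`,
`u = lwin y (k + n + 1) K`, `v = lwin y (k' + n + 1) K`; `a :: u = lwin y (k + n) (K + 1)` (`lwin_succ'`), `(!a) :: v = lwin y (k' + n) (K + 1)`.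
By `cat_blk` both `(a :: u).flatMap f` and `((!a) :: v).flatMap f` are windows of `z` at `s`, `s'`, hence prefixes of
`W = win z s (maximum of the two lengths)` (`win_add`, `win_eq_iff`), and their lengths are `≥ K + 1` (`flatMap_len`). `two_code` says that the
blocks commute, a contradiction. So `EvPB y` with period `k' - k` from `k` on (`n ≥ k`: `y (n + (k' - k)) = y (k' + (n - k)) = y n`).
PROOF of `nep`. If the blocks commute then `cat_comm_evPer`; if `EvPB y` then `cat_evPer`. For the reversed blocks (`rv f`): nonempty, and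
`rv f false ++ rv f true = rv f true ++ rv f false` would give by reversal (`List.reverse_append`) that the blocks commute; so if
`EvPer (cat (rv f) y)` then `EvPB y` by `evPB_of_cat`, excluded.
-/

set_option autoImplicit false

namespace Pool.Agent.H1.DP

open Filter Pool.Agent.H2.MC Pool.Agent.H17.EP

variable {f : Bool → List ℕ}

private lemma nepC_mod {z : ℕ → ℕ} {N p : ℕ} (hz : ∀ n, N ≤ n → z (n + p) = z n) {n n' : ℕ} (hn : N ≤ n)
    (hn' : N ≤ n') (h : n ≡ n' [MOD p]) : z n = z n' := by
  have key : ∀ m n, N ≤ n → z (n + m * p) = z n := by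
    intro m
    induction m with
    | zero => intro n _; simp
    | succ m ih =>
      intro n hn
      rw [Nat.succ_mul, ← Nat.add_assoc, hz _ (by omega), ih n hn]
  have main : ∀ {n n' : ℕ}, N ≤ n → n ≤ n' → n ≡ n' [MOD p] → z n = z n' := by
    intro n n' hn hle h
    obtain ⟨m, hm⟩ := (Nat.modEq_iff_dvd' hle).1 h
    have h1 : n' = n + m * p := by
      rw [Nat.mul_comm] at hm
      omega
    rw [h1, key m n hn]
  rcases le_total n n' with hle | hle
  · exact main hn hle h
  · exact (main hn' hle h.symm).symm

private lemma nepC_lwin {y : ℕ → Bool} {k k' n : ℕ} (h : ∀ t < n, y (k + t) = y (k' + t)) :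
    lwin y k n = lwin y k' n := by
  apply List.ext_getElem
  · simp
  · intro t h1 h2
    rw [lwin_getElem, lwin_getElem]
    apply h
    rw [lwin_length] at h1
    exact h1

theorem evPB_of_cat (hf : ∀ a, f a ≠ []) (hc : f false ++ f true ≠ f true ++ f false) {y : ℕ → Bool}
    (h : EvPer (cat f y)) : EvPB y := by
  obtain ⟨N, p, hp, hz⟩ := h
  -- pigeonhole
  obtain ⟨k, k', hNk, hkk, hmod⟩ : ∃ k k', N ≤ k ∧ k < k' ∧ bp f y k ≡ bp f y k' [MOD p] := by
    obtain ⟨i, j, hij, he⟩ := Fintype.exists_ne_map_eq_of_card_lt
      (fun i : Fin (p + 1) => (⟨bp f y (N + i) % p, Nat.mod_lt _ hp⟩ : Fin p)) (by simp)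
    have he' : bp f y (N + i) % p = bp f y (N + j) % p := congrArg Fin.val he
    rcases lt_or_gt_of_ne hij with hlt | hlt
    · exact ⟨N + i, N + j, Nat.le_add_right _ _, Nat.add_lt_add_left hlt N, he'⟩
    · exact ⟨N + j, N + i, Nat.le_add_right _ _, Nat.add_lt_add_left hlt N, he'.symm⟩
  have claim : ∀ n, y (k + n) = y (k' + n) := by
    intro n
    induction n using Nat.strong_induction_on with
    | _ n ih =>
      have hw : lwin y k n = lwin y k' n := nepC_lwin ih
      have hs : bp f y (k + n) ≡ bp f y (k' + n) [MOD p] := by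
        rw [bp_add, bp_add, hw]
        exact Nat.ModEq.add_right _ hmod
      have h1 : N ≤ bp f y (k + n) := le_trans (by omega) (le_bp hf y (k + n))
      have h2 : N ≤ bp f y (k' + n) := le_trans (by omega) (le_bp hf y (k' + n))
      have hzt : ∀ t, cat f y (bp f y (k + n) + t) = cat f y (bp f y (k' + n) + t) := by
        intro t
        exact nepC_mod hz (by omega) (by omega) (Nat.ModEq.add_right t hs)
      by_contra hne
      obtain ⟨a, ha⟩ : ∃ a, a = y (k + n) := ⟨_, rfl⟩
      have hb : y (k' + n) = !a := by
        rw [ha]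
        cases hx : y (k + n) <;> cases hx' : y (k' + n) <;> simp_all
      set K := (f false).length + (f true).length with hK
      have hu : lwin y (k + n) (K + 1) = a :: lwin y (k + n + 1) K := by rw [lwin_succ', ha]
      have hv : lwin y (k' + n) (K + 1) = (!a) :: lwin y (k' + n + 1) K := by rw [lwin_succ', hb]
      have cu := cat_blk hf y (k + n) (K + 1)
      have cv := cat_blk hf y (k' + n) (K + 1)
      have lu := flatMap_len y f hf (k + n) (K + 1)
      have lv := flatMap_len y f hf (k' + n) (K + 1)
      have cv' : win (cat f y) (bp f y (k + n)) ((lwin y (k' + n) (K + 1)).flatMap f).length =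
          (lwin y (k' + n) (K + 1)).flatMap f := by
        rw [← cv]
        rw [win_length]
        exact (win_eq_iff _ _ _ _ _).2 fun t _ => hzt t
      set M := max ((lwin y (k + n) (K + 1)).flatMap f).length ((lwin y (k' + n) (K + 1)).flatMap f).length with hM
      have hpre : ∀ m, m ≤ M → win (cat f y) (bp f y (k + n)) m <+: win (cat f y) (bp f y (k + n)) M := by
        intro m hm
        obtain ⟨r, hr⟩ := Nat.exists_eq_add_of_le hm
        rw [hr, win_add]
        exact List.prefix_append _ _
      apply hc
      refine two_code K f a (lwin y (k + n + 1) K) (lwin y (k' + n + 1) K) (win (cat f y) (bp f y (k + n)) M) le_rfl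
        hf ?_ ?_ ?_ ?_
      · rw [← hu, ← cu]
        exact hpre _ (le_max_left _ _)
      · rw [← hv, ← cv']
        exact hpre _ (le_max_right _ _)
      · rw [← hu]; omega
      · rw [← hv]; omega
  refine ⟨k, k' - k, by omega, fun n hn => ?_⟩
  have := claim (n - k)
  rw [show k + (n - k) = n by omega, show k' + (n - k) = n + (k' - k) by omega] at this
  exact this.symm

theorem nep (hf : ∀ a, f a ≠ []) {y : ℕ → Bool} (h : ¬ EvPer (cat f y)) :
    f false ++ f true ≠ f true ++ f false ∧ ¬ EvPB y ∧ ¬ EvPer (cat (rv f) y) := by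
  have h1 : f false ++ f true ≠ f true ++ f false := fun hc => h (cat_comm_evPer hf hc y)
  have h2 : ¬ EvPB y := fun hy => h (cat_evPer hf hy)
  refine ⟨h1, h2, fun h3 => h2 (evPB_of_cat (f := rv f) ?_ ?_ h3)⟩
  · intro a ha
    exact hf a (List.reverse_eq_nil_iff.1 ha)
  · intro hc
    apply h1
    have := congrArg List.reverse hc
    simp only [rv, List.reverse_append, List.reverse_reverse] at this
    exact this.symm

end Pool.Agent.H1.DP
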