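import Mathlib
import Pool.Agent.H1.DP.NepC
import Pool.Agent.H1.DP.Cnv
import Pool.Agent.H1.DP.Lan
import Pool.Agent.H1.DP.Crt4
import Pool.Agent.H1.DP.Fin4
import Pool.Agent.H2.MC.ThmA

set_option autoImplicit false

/-!
# Theorem 4 (proved from the modules)
-/

namespace Pool.Agent.H1.DP

open Filter Pool.Agent.H2.MC Pool.Agent.H2.Sturm Pool.Agent.H17.EP Pool.Agent.H54.TM Matrix

variable {f : Bool → List ℕ}

/-- recurrent words of a tail -/
lemma recB_tail {b z : ℕ → ℕ} {i0 : ℕ} (h : ∀ n, z n = b (i0 + n)) (n : ℕ) : RecB z n = RecB b n := by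
  have hw : ∀ i, win z i n = win b (i0 + i) n := by
    intro i
    rw [win_eq_iff]
    intro t _
    rw [h, Nat.add_assoc]
  ext w
  constructor
  · intro hz
    have hz' : ∃ᶠ i in atTop, win z i n = w := hz
    show ∃ᶠ i in atTop, win b i n = w
    rw [frequently_atTop] at hz' ⊢
    intro N
    obtain ⟨i, hi, hw1⟩ := hz' N
    exact ⟨i0 + i, by omega, by rw [← hw, hw1]⟩
  · intro hb
    have hb' : ∃ᶠ i in atTop, win b i n = w := hb
    show ∃ᶠ i in atTop, win z i n = w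
    rw [frequently_atTop] at hb' ⊢
    intro N
    obtain ⟨i, hi, hw1⟩ := hb' (i0 + N)
    obtain ⟨k, rfl⟩ := Nat.exists_eq_add_of_le (show i0 ≤ i by omega)
    exact ⟨k, by omega, by rw [hw, hw1]⟩

lemma evPer_of_tail {b z : ℕ → ℕ} {i0 : ℕ} (h : ∀ n, z n = b (i0 + n)) (hz : EvPer z) : EvPer b := by
  obtain ⟨N, p, hp, hN⟩ := hz
  refine ⟨i0 + N, p, hp, fun n hn => ?_⟩
  obtain ⟨k, rfl⟩ := Nat.exists_eq_add_of_le (show i0 ≤ n by omega)
  have h1 := hN k (by omega)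
  rw [h, h] at h1
  rw [Nat.add_assoc]
  exact h1

/-- the letters of a concatenation are bounded -/
lemma cat_bd (hf : ∀ a, f a ≠ []) : ∃ M, ∀ (y : ℕ → Bool) (n : ℕ), cat f y n ≤ M := by
  refine ⟨(f false).sum + (f true).sum, fun y n => ?_⟩
  have hn : n < ((lwin y 0 (n + 1)).flatMap f).length := by
    have := le_bp hf y (n + 1)
    unfold bp at this
    omega
  rw [cat_get hf y (n + 1) n hn]
  have h1 : ((lwin y 0 (n + 1)).flatMap f)[n] ∈ (lwin y 0 (n + 1)).flatMap f := List.getElem_mem hn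
  rw [List.mem_flatMap] at h1
  obtain ⟨a, -, ha⟩ := h1
  have h2 := List.single_le_sum (l := f a) (fun x _ => Nat.zero_le x) _ ha
  cases a
  · omega
  · omega

theorem main4 (hf : ∀ a, f a ≠ []) (hp : ∀ a, ∀ e ∈ f a, 0 < e) {x y : ℕ → Bool} (H : MR x y) {α β : ℝ}
    (hα : NotQuad α) (hβ : NotQuad β) {i0 j0 : ℕ} (hx : Reads (pq α) i0 f x) (hy : Reads (pq β) j0 f y)
    {c κ : ℝ} (hc0 : 0 ≤ c) (hc1 : c < 1) (hκ : κ < 2 / (1 + c))
    (h : ∃ᶠ n : ℕ in atTop, ((RecB (pq α) n).ncard : ℝ) ≤ κ * n) {g g' : Matrix (Fin 2) (Fin 2) ℤ}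
    (hg : g.det ≠ 0) (hg' : g'.det ≠ 0) : PowerLittlewood c (mob g α) (mob g' β) := by
  obtain ⟨b, hb⟩ : ∃ b, b = cat f x := ⟨_, rfl⟩
  obtain ⟨a, ha⟩ : ∃ a, a = cat (rv f) y := ⟨_, rfl⟩
  have hα0 : ∀ n, 0 < pq α n := pq_pos hα
  have hβ0 : ∀ n, 0 < pq β n := pq_pos hβ
  have hκ2 : κ < 2 := by
    refine lt_of_lt_of_le hκ ?_
    rw [div_le_iff₀ (by linarith)]
    linarith
  have hw2 : 2 ≤ 2 / (1 - c) := by
    rw [le_div_iff₀ (by linarith)]
    linarith
  have hrf : ∀ e, rv f e ≠ [] := fun e => by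
    unfold rv
    simpa using hf e
  -- the auxiliary sequences are not eventually periodic
  have hbt : ∀ n, b n = pq α (i0 + n) := fun n => by rw [hb]; exact cat_of_reads hf hx n
  have hct : ∀ n, cat f y n = pq β (j0 + n) := fun n => cat_of_reads hf hy n
  have hbp : ¬ EvPer b := fun h1 => not_evPer hα (evPer_of_tail hbt h1)
  have hcp : ¬ EvPer (cat f y) := fun h1 => not_evPer hβ (evPer_of_tail hct h1)
  obtain ⟨hcm, -, hap⟩ := nep hf hcp
  rw [← ha] at hap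
  -- bounded letters
  obtain ⟨M1, hM1⟩ := cat_bd hf
  obtain ⟨M2, hM2⟩ := cat_bd hrf
  have hbd : Bd b a (max M1 M2) := by
    refine ⟨fun n => ?_, fun n => ?_⟩
    · rw [hb]; exact (hM1 x n).trans (le_max_left _ _)
    · rw [ha]; exact (hM2 y n).trans (le_max_right _ _)
  -- complexity
  have hc' : ∃ᶠ n : ℕ in atTop, ((Rec b a n).ncard : ℝ) + 2 / (1 - c) * (Tr b a n).ncard ≤ κ * n := by
    refine h.mono fun n hn => ?_
    rw [hb, ha, lan_rec hf H, lan_tr hf H, Set.ncard_empty, Nat.cast_zero, mul_zero, add_zero, ← hb,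
      recB_tail hbt]
    exact hn
  have hcomb := comb_fine hbd hbp hap hκ2 hw2 hc'
  -- rates
  have hF := lang_Rec hbd
  have hRB : ∀ n, Rec b a n = RecB b n := fun n => by rw [hb, ha, lan_rec hf H]
  have hrec : ∀ n, ∀ w ∈ Rec b a n, ∃ᶠ i in atTop, win b i n = w := by
    intro n w hw
    rw [hRB] at hw
    exact hw
  have hev : ∀ n, ∃ N, ∀ i, N ≤ i → win b i n ∈ Rec b a n := by
    intro n
    refine ⟨0, fun i _ => ?_⟩
    rw [hRB, hb]
    exact lan_a hf H i n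
  have hcard : ∃ᶠ n : ℕ in atTop, ((Rec b a n).ncard : ℝ) ≤ κ * n := by
    refine hc'.mono (fun n hn => ?_)
    have h1 : (0 : ℝ) ≤ 2 / (1 - c) * (Tr b a n).ncard := by positivity
    linarith
  have hlog2 : 0 ≤ Real.log 2 := Real.log_nonneg (by norm_num)
  obtain ⟨lam, hlam0, hlam⟩ := rate hF hrec hev hκ2 hcard hlog2 wt_nonneg wt_append_ge wt_append_le
  have hlampos : 0 < lam := rate_pos hF.nonempty (fun n w hw => Rec_length hw) hlam0 hlam
  -- bounded partial quotients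
  obtain ⟨MA, hMA⟩ : ∃ M, ∀ n, pq α n ≤ M := by
    refine ⟨max M1 ((Finset.range i0).sup (pq α)), fun n => ?_⟩
    rcases lt_or_ge n i0 with h1 | h1
    · exact (Finset.le_sup (f := pq α) (Finset.mem_range.2 h1)).trans (le_max_right _ _)
    · obtain ⟨k, rfl⟩ := Nat.exists_eq_add_of_le h1
      rw [← hbt, hb]
      exact (hM1 x k).trans (le_max_left _ _)
  obtain ⟨MB, hMB⟩ : ∃ M, ∀ n, pq β n ≤ M := by
    refine ⟨max M1 ((Finset.range j0).sup (pq β)), fun n => ?_⟩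
    rcases lt_or_ge n j0 with h1 | h1
    · exact (Finset.le_sup (f := pq β) (Finset.mem_range.2 h1)).trans (le_max_right _ _)
    · obtain ⟨k, rfl⟩ := Nat.exists_eq_add_of_le h1
      rw [← hct]
      exact (hM1 y k).trans (le_max_left _ _)
  have hxA := win_rate hα0 hMA hlam0 hlam (fun n => ⟨i0, fun i hi => by
    obtain ⟨k, rfl⟩ := Nat.exists_eq_add_of_le hi
    left
    rw [hRB, win_of_reads hf hx, hb]
    exact lan_a hf H k n⟩)
  have hxB := win_rate hβ0 hMB hlam0 hlam (fun n => ⟨j0, fun i hi => by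
    obtain ⟨k, rfl⟩ := Nat.exists_eq_add_of_le hi
    left
    rw [hRB, win_of_reads hf hy, hb]
    exact lan_c hf H k n⟩)
  have hr : ∀ ε : ℝ, 0 < ε → ∃ C : ℝ, ∀ i n : ℕ, |Real.log (siz (win (pq α) i n)) - lam * n| ≤ ε * n + C ∧
      |Real.log (siz (win (pq β) i n)) - lam * n| ≤ ε * n + C := by
    intro ε hε
    obtain ⟨C, hC⟩ := hxA ε hε
    obtain ⟨C', hC'⟩ := hxB ε hε
    exact ⟨max C C', fun i n => ⟨(hC i n).trans (by gcongr; exact le_max_left _ _),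
      (hC' i n).trans (by gcongr; exact le_max_right _ _)⟩⟩
  -- the criterion
  obtain ⟨L, z, hz, hcnv⟩ := cnv hf hp hcm hx hy
  rw [← hb, ← ha] at hcnv
  have hΦ := crt4 hα hβ hg hg' hlampos hr hMA hc0 hc1 hz hcnv
  have hfin := fin4 (Φ := fun q : ℕ => (q : ℝ) ^ (1 + c) * nd (q * mob g α) * nd (q * mob g' β)) hlampos hc0 hc1 hκ hΦ
    hcomb
  intro ε0 hε0 N
  obtain ⟨η, hη, hηε, hηq⟩ := exists_eta (nq_mob hα hg) (nq_mob hβ hg') c hε0 N
  obtain ⟨q, hq0, hq⟩ := hfin η hη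
  have hqN : N ≤ q := by
    by_contra hcon
    have h1 := hηq q hq0 (not_le.1 hcon)
    exact absurd hq (not_lt.2 h1)
  exact ⟨q, hqN, hq0, lt_of_lt_of_le hq hηε⟩

end Pool.Agent.H1.DP
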