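import Mathlib
import Pool.Agent.H1.DC.SloD
import Pool.Agent.H1.DC.Lev1

set_option autoImplicit false

/-!
# Module TwoR (60 lines): two right special words

PROOF. `Lang (RecB b)` (`lang_RecB hM`). For `n1 < n ≤ n2`: `(RecB b n).ncard + 2 ≤ (RecB b (n + 1)).ncard`: otherwise `Lang.uniq_right` (with `R = W`) says that
`W' ≠ W` has not two right extensions. For `n = n1`: `(RecB b (n1 + 1)).ncard ≥ n1 + 2` (`recB_low`). Induction on `n2 - n1`:
`(RecB b (n2 + 1)).ncard ≥ n1 + 2 + 2 (n2 - n1)`.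
-/

namespace Pool.Agent.H1.DP

open Filter Pool.Agent.H2.MC Pool.Agent.H1.DC

theorem two_rs {b : ℕ → ℕ} {M : ℕ} (hM : ∀ n, b n ≤ M) (hb : ¬ EvPer b) {n1 n2 : ℕ} (hn : n1 ≤ n2)
    (h : ∀ n, n1 < n → n ≤ n2 → ∃ (W W' : List ℕ) (e e' g g' : ℕ), W ≠ W' ∧ e ≠ e' ∧ g ≠ g' ∧
      W ++ [e] ∈ RecB b (n + 1) ∧ W ++ [e'] ∈ RecB b (n + 1) ∧ W' ++ [g] ∈ RecB b (n + 1) ∧
      W' ++ [g'] ∈ RecB b (n + 1)) : 2 * n2 + 2 ≤ (RecB b (n2 + 1)).ncard + n1 := by
  have hL := lang_RecB hM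
  have key : ∀ n, n1 ≤ n → n ≤ n2 → 2 * n + 2 ≤ (RecB b (n + 1)).ncard + n1 := by
    intro n hn1
    induction n, hn1 using Nat.le_induction with
    | base =>
      intro _
      have h1 := recB_low hM hb (n1 + 1)
      omega
    | succ n hn1 ih =>
      intro hle
      have h1 := ih (by omega)
      obtain ⟨W, W', e, e', g, g', hW, he, hg, h2, h3, h4, h5⟩ := h (n + 1) (by omega) hle
      have h6 : (RecB b (n + 1)).ncard + 2 ≤ (RecB b (n + 1 + 1)).ncard := by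
        by_contra hcon
        have h7 : (RecB b (n + 1 + 1)).ncard ≤ (RecB b (n + 1)).ncard + 1 := by omega
        exact hg (hL.uniq_right (n + 1) h7 he h2 h3 W' g g' (Ne.symm hW) h4 h5)
      omega
  exact key n2 hn le_rfl

end Pool.Agent.H1.DP
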