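import Mathlib
import Pool.Agent.H1.DP.Dcd
import Pool.Agent.H1.DP.TwoR

set_option autoImplicit false

/-!
# Module Qx (150 lines): the gap condition of the coding

PROOFS.
* `rsp_b`: `u ++ [a] ∈ lg x` for both `a`: `lwin x k (u.length + 1) = u ++ [a]`, so by `cd_win` the word `(u ++ [a]).flatMap f ++ R = u.flatMap f ++ (f a ++ R)` is a
  window of `z`; its prefix of length `(u.flatMap f).length + (m + 1)` is `u.flatMap f ++ (R ++ [if a then d else c])` (`Lv.fR`, lengths; `win_take`). All windows of `z` are
  in `RecB b` (`hz`).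
* `ln_len`: `ln (fun a => (f a).length) m u = (u.flatMap f).length + m` (`List.length_flatMap`), `= (u.flatMap f ++ R).length`.
* `q_lg`. `pos`: `Lv.ne`. `lt`: `Lv.cnt` and `recB_low` (`m + 1 ≤ (RecB b m).ncard`). `gap`: let `T = t.flatMap f ++ R`, `n1 = T.length ≥ m`;
  `V = (v ++ a :: t).flatMap f ++ R = v.flatMap f ++ (f a ++ T)`, `V' = (v' ++ (!a) :: t).flatMap f ++ R = v'.flatMap f ++ (f (!a) ++ T)`; `n2 = min V.length V'.length > n1`.
  For `n1 < n ≤ n2` let `W`, `W'` be the suffixes of length `n` of `V`, `V'` (`List.drop (V.length - n) V`); `W ++ [c], W ++ [d], W' ++ [c], W' ++ [d] ∈ RecB b (n + 1)`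
  (`rsp_b`; suffixes of words of `RecB`: `(lang_RecB hM).drop_mem`, or directly from `∃ᶠ`). `W ≠ W'`: both end with `T` (length `n1 < n`), preceded by the
  last letter of `f a` in `W` and of `f (!a)` in `W'` (the blocks are nonempty), and these are different (`Lv.last`, cases on `a`). So `two_rs` gives
  `2 n2 + 2 ≤ (RecB b (n2 + 1)).ncard + n1`, and `h` gives `(RecB b (n2 + 1)).ncard ≤ 3/2 (n2 + 1)`. Hence `2 n2 + 2 ≤ 3/2 (n2 + 1) + n1`,
  `n2 + 1 ≤ 2 n1`, so `n2 < 2 n1`. `ln_len`.
-/

namespace Pool.Agent.H1.DP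

open Filter Pool.Agent.H2.MC Pool.Agent.H17.EP Pool.Agent.H1.DC

variable {b : ℕ → ℕ} {M m : ℕ} {R : List ℕ} {c d : ℕ} {f : Bool → List ℕ} {z : ℕ → ℕ} {x : ℕ → Bool}

lemma qx_ext (hl : Lv b m R c d f) (hz : ∀ n, In b n z) (hx : Cd m R c d f z x) {u : List Bool} {a : Bool}
    (hu : u ++ [a] ∈ lg x) :
    (u.flatMap f ++ R) ++ [if a then d else c] ∈ RecB b ((u.flatMap f).length + m + 1) := by
  obtain ⟨k, hk⟩ := hu
  have h1 := cd_win hl hx k (u ++ [a]).length
  rw [hk] at h1
  have hfl : (u ++ [a]).flatMap f = u.flatMap f ++ f a := by simp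
  rw [hfl, List.append_assoc, List.length_append] at h1
  have hpos : 0 < (f a).length := List.length_pos_of_ne_nil (hl.ne a)
  have h2 : (win z (bp f x k) ((u.flatMap f).length + (f a).length + m)).take ((u.flatMap f).length + (m + 1)) =
      win z (bp f x k) ((u.flatMap f).length + (m + 1)) := win_take _ _ (by omega)
  rw [h1, List.take_length_add_append, hl.fR a] at h2
  have h3 := hz ((u.flatMap f).length + (m + 1)) (bp f x k)
  rw [← h2] at h3
  have e : (u.flatMap f).length + m + 1 = (u.flatMap f).length + (m + 1) := by omega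
  rw [e, List.append_assoc]
  exact h3

lemma rsp_b (hl : Lv b m R c d f) (hz : ∀ n, In b n z) (hx : Cd m R c d f z x) {u : List Bool}
    (hu : RSp (lg x) u) :
    (u.flatMap f ++ R) ++ [c] ∈ RecB b ((u.flatMap f).length + m + 1) ∧
      (u.flatMap f ++ R) ++ [d] ∈ RecB b ((u.flatMap f).length + m + 1) := by
  refine ⟨?_, ?_⟩
  · have := qx_ext hl hz hx hu.1
    simpa using this
  · have := qx_ext hl hz hx hu.2
    simpa using this

lemma ln_len (f : Bool → List ℕ) (m : ℕ) (u : List Bool) :
    ln (fun a => (f a).length) m u = (u.flatMap f).length + m := by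
  unfold ln
  rw [List.length_flatMap, Nat.add_comm]

lemma qx_drop {A T : List ℕ} {j : ℕ} (hj : j ≤ A.length) :
    (A ++ T).drop (A.length - j) = A.drop (A.length - j) ++ T :=
  List.drop_append_of_le_length (by omega)

lemma qx_ne {A A' T : List ℕ} {n : ℕ} (h : A.getLast? ≠ A'.getLast?) (h1 : T.length < n)
    (h2 : n ≤ (A ++ T).length) (h3 : n ≤ (A' ++ T).length) :
    (A ++ T).drop ((A ++ T).length - n) ≠ (A' ++ T).drop ((A' ++ T).length - n) := by
  intro he
  rw [List.length_append] at h2 h3
  have e1 : (A ++ T).length - n = A.length - (n - T.length) := by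
    rw [List.length_append]; omega
  have e2 : (A' ++ T).length - n = A'.length - (n - T.length) := by
    rw [List.length_append]; omega
  rw [e1, e2, qx_drop (by omega), qx_drop (by omega)] at he
  have he2 := List.append_cancel_right he
  have g1 : (A.drop (A.length - (n - T.length))).getLast? = A.getLast? := by
    rw [List.getLast?_drop, if_neg (by omega)]
  have g2 : (A'.drop (A'.length - (n - T.length))).getLast? = A'.getLast? := by
    rw [List.getLast?_drop, if_neg (by omega)]
  exact h (by rw [← g1, ← g2, he2])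

lemma qx_suf (hM : ∀ n, b n ≤ M) {V : List ℕ} {e n : ℕ} (hn : n ≤ V.length)
    (h : V ++ [e] ∈ RecB b (V.length + 1)) : V.drop (V.length - n) ++ [e] ∈ RecB b (n + 1) := by
  have h1 : V.length + 1 = (V.length - n) + (n + 1) := by omega
  rw [h1] at h
  have h2 := (lang_RecB hM).drop_mem h
  rwa [List.drop_append_of_le_length (by omega)] at h2

theorem q_lg (hM : ∀ n, b n ≤ M) (hb : ¬ EvPer b) (hl : Lv b m R c d f) (hz : ∀ n, In b n z)
    (hx : Cd m R c d f z x) (h : ∀ n : ℕ, m ≤ n → ((RecB b n).ncard : ℝ) ≤ 3 / 2 * n) : Q (lg x) (fun a => (f a).length) m := by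
  refine ⟨fun a => List.length_pos_of_ne_nil (hl.ne a), ?_, ?_⟩
  · have h1 := hl.cnt
    have h2 := recB_low hM hb m
    show m < (f false).length + (f true).length
    omega
  · intro a t v v' hv hv'
    rw [ln_len, ln_len, ln_len]
    have hR := hl.Rl
    have hpa : 0 < (f a).length := List.length_pos_of_ne_nil (hl.ne a)
    have hpb : 0 < (f (!a)).length := List.length_pos_of_ne_nil (hl.ne (!a))
    obtain ⟨r1, r2⟩ := rsp_b hl hz hx hv
    obtain ⟨s1, s2⟩ := rsp_b hl hz hx hv'
    have eV : (v ++ a :: t).flatMap f ++ R = (v.flatMap f ++ f a) ++ (t.flatMap f ++ R) := by simp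
    have eV' : (v' ++ (!a) :: t).flatMap f ++ R = (v'.flatMap f ++ f (!a)) ++ (t.flatMap f ++ R) := by simp
    have lT : (t.flatMap f ++ R).length = (t.flatMap f).length + m := by rw [List.length_append, hR]
    have lV : ((v.flatMap f ++ f a) ++ (t.flatMap f ++ R)).length = ((v ++ a :: t).flatMap f).length + m := by
      rw [← eV, List.length_append, hR]
    have lV' : ((v'.flatMap f ++ f (!a)) ++ (t.flatMap f ++ R)).length =
        ((v' ++ (!a) :: t).flatMap f).length + m := by
      rw [← eV', List.length_append, hR]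
    rw [eV, ← lV] at r1 r2
    rw [eV', ← lV'] at s1 s2
    rw [← lT, ← lV, ← lV']
    set A := v.flatMap f ++ f a with hA
    set A' := v'.flatMap f ++ f (!a) with hA'
    set T := t.flatMap f ++ R with hT
    have hApos : 0 < A.length := by rw [hA, List.length_append]; omega
    have hApos' : 0 < A'.length := by rw [hA', List.length_append]; omega
    have hlast : A.getLast? ≠ A'.getLast? := by
      rw [hA, hA', List.getLast?_append_of_ne_nil _ (hl.ne a), List.getLast?_append_of_ne_nil _ (hl.ne (!a))]
      cases a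
      · exact hl.last
      · exact fun e => hl.last e.symm
    have hlA : (A ++ T).length = A.length + T.length := List.length_append
    have hlA' : (A' ++ T).length = A'.length + T.length := List.length_append
    have key := two_rs hM hb (n1 := T.length) (n2 := min (A ++ T).length (A' ++ T).length)
      (by rw [hlA, hlA']; omega) (by
        intro n hn1 hn2
        have hn3 : n ≤ (A ++ T).length := le_trans hn2 (min_le_left _ _)
        have hn4 : n ≤ (A' ++ T).length := le_trans hn2 (min_le_right _ _)
        exact ⟨(A ++ T).drop ((A ++ T).length - n), (A' ++ T).drop ((A' ++ T).length - n), c, d, c, d,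
          qx_ne hlast hn1 hn3 hn4, hl.cd, hl.cd, qx_suf hM hn3 r1, qx_suf hM hn3 r2, qx_suf hM hn4 s1,
          qx_suf hM hn4 s2⟩)
    have hm : m ≤ min (A ++ T).length (A' ++ T).length + 1 := by
      rw [hlA, hlA']; omega
    have h5 := h _ hm
    generalize min (A ++ T).length (A' ++ T).length = N at key h5 ⊢
    have key' : (2 : ℝ) * N + 2 ≤ ((RecB b (N + 1)).ncard : ℝ) + T.length := by exact_mod_cast key
    push_cast at h5
    have h7 : (N : ℝ) < 2 * T.length := by linarith
    exact_mod_cast h7

end Pool.Agent.H1.DP
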