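import Mathlib
import Pool.Agent.H1.DP.Dcd

set_option autoImplicit false

/-!
# Module Rcx (90 lines): recurrence of the coding, occurrence of `R`

PROOFS.
* `rcx`: `Filter.frequently_atTop`: given `K`, take an occurrence `i ≥ N + bp f x K` in `b` of the word `u.flatMap f ++ R` (`hu`); `i = N + i'`;
  `win (fun k => b (N + k)) i' _ = win b (N + i') _` (`win_sh` in `H1/DC/Det`). `cd_dec`: `i' = bp f x k`, `lwin x k u.length = u`; `bp f x K ≤ i' = bp f x k`, so
  `K ≤ k` (`bp_mono`, `StrictMono.le_iff_le`).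
* `r_occ`: `K = (f false).length + (f true).length + m`. `win z 0 K ∈ RecB b K` (`hz`), so it occurs in `b` at some `i ≥ N` (frequently),
  `i = N + i'`. `bp_loc` for `i'`: `bp f x k ≤ i' < bp f x (k + 1)`; `bp f x (k + 1) - i' ≤ (f (x k)).length ≤ (f false).length + (f true).length`.
  `R` occurs in `fun k => b (N + k)` at `bp f x (k + 1)` (`Cd.at_`, `win_succ`), so in `z` at `bp f x (k + 1) - i'` (compare windows: `win_eq_iff`,
  or `win_take`/`win_drop`).
-/

namespace Pool.Agent.H1.DP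

open Filter Pool.Agent.H2.MC Pool.Agent.H17.EP Pool.Agent.H1.DC

variable {b : ℕ → ℕ} {m : ℕ} {R : List ℕ} {c d : ℕ} {f : Bool → List ℕ} {x : ℕ → Bool} {N : ℕ}

theorem rcx (hl : Lv b m R c d f) (hx : Cd m R c d f (fun k => b (N + k)) x) {u : List Bool}
    (hu : u.flatMap f ++ R ∈ RecB b ((u.flatMap f).length + m)) : ∃ᶠ k in atTop, lwin x k u.length = u := by
  have hu' : ∃ᶠ i in atTop, win b i ((u.flatMap f).length + m) = u.flatMap f ++ R := hu
  rw [frequently_atTop] at hu' ⊢
  intro K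
  obtain ⟨i, hi, hw⟩ := hu' (N + bp f x K)
  obtain ⟨i', rfl⟩ := Nat.exists_eq_add_of_le ((Nat.le_add_right N (bp f x K)).trans hi)
  have hw' : win (fun k => b (N + k)) i' ((u.flatMap f).length + m) = u.flatMap f ++ R := by
    rw [win_sh]
    exact hw
  obtain ⟨k, hk, hk'⟩ := cd_dec hl hx hw'
  refine ⟨k, ?_, hk'⟩
  have h1 : bp f x K ≤ bp f x k := by omega
  exact (bp_mono hl.ne x).le_iff_le.1 h1

theorem r_occ (hl : Lv b m R c d f) (hx : Cd m R c d f (fun k => b (N + k)) x) {z : ℕ → ℕ} (hz : ∀ n, In b n z) :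
    ∃ i, win z i m = R := by
  have h1 : ∃ᶠ i in atTop, win b i ((f false).length + (f true).length + m) =
      win z 0 ((f false).length + (f true).length + m) := hz _ 0
  rw [frequently_atTop] at h1
  obtain ⟨i, hi, hw⟩ := h1 N
  obtain ⟨i', rfl⟩ := Nat.exists_eq_add_of_le hi
  obtain ⟨k, hk, hk'⟩ := bp_loc hl.ne x i'
  have h2 := bp_succ f x k
  have h3 : (f (x k)).length ≤ (f false).length + (f true).length := by
    cases x k
    · exact Nat.le_add_right _ _
    · exact Nat.le_add_left _ _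
  have h4 : win (fun k => b (N + k)) (bp f x (k + 1)) m = R := by
    have h5 := congrArg (List.take m) (hx.at_ (k + 1))
    rw [win_take _ _ (Nat.le_succ m)] at h5
    rw [h5, List.take_append_of_le_length (le_of_eq hl.Rl.symm), ← hl.Rl, List.take_length]
  rw [win_sh] at h4
  refine ⟨bp f x (k + 1) - i', ?_⟩
  rw [← h4, win_eq_iff]
  intro t ht
  rw [win_eq_iff] at hw
  have h6 := hw (bp f x (k + 1) - i' + t) (by omega)
  rw [Nat.zero_add] at h6
  rw [← h6]
  congr 1
  omega

end Pool.Agent.H1.DP
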