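import Mathlib
import Pool.Agent.H1.DP.Main4
import Pool.Agent.H1.DP.Clo
import Pool.Agent.H1.DP.LvE
import Pool.Agent.H1.DP.Cod
import Pool.Agent.H1.DP.Rcx
import Pool.Agent.H1.DP.Blx
import Pool.Agent.H1.DP.Qx

set_option autoImplicit false

/-!
# Theorem 5 (proved from the modules)
-/

namespace Pool.Agent.H1.DP

open Filter Pool.Agent.H2.MC Pool.Agent.H2.Sturm Pool.Agent.H17.EP Pool.Agent.H54.TM Pool.Agent.H1.DC Matrix

/-- if all late windows of length `n > 0` lie in a finite set the sequence is bounded -/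
lemma bdd_of_fin {a : ℕ → ℕ} {n N : ℕ} (hn : 0 < n) {S : Set (List ℕ)} (hS : S.Finite)
    (h : ∀ i, N ≤ i → win a i n ∈ S) : ∃ M, ∀ k, a k ≤ M := by
  have hS' : (⋃ w ∈ S, {x : ℕ | x ∈ w}).Finite := hS.biUnion (fun w _ => w.finite_toSet)
  obtain ⟨M, hM⟩ := hS'.bddAbove
  obtain ⟨m, rfl⟩ : ∃ m, n = m + 1 := ⟨n - 1, by omega⟩
  refine ⟨max M ((Finset.range N).sup a), fun k => ?_⟩
  rcases lt_or_ge k N with h1 | h1
  · exact (Finset.le_sup (f := a) (Finset.mem_range.2 h1)).trans (le_max_right _ _)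
  · refine le_trans (hM ?_) (le_max_left _ _)
    rw [Set.mem_iUnion₂]
    refine ⟨_, h k h1, ?_⟩
    show a k ∈ win a k (m + 1)
    rw [win_succ']
    exact List.mem_cons_self

theorem main5 {α β : ℝ} (hα : NotQuad α) (hβ : NotQuad β) {N : ℕ}
    (h1 : ∀ i n, N ≤ i → win (pq α) i n ∈ RecB (pq α) n) (h2 : ∀ i n, N ≤ i → win (pq β) i n ∈ RecB (pq α) n)
    (h3 : ∀ᶠ n : ℕ in atTop, (RecB (pq α) n).Finite ∧ ((RecB (pq α) n).ncard : ℝ) ≤ 3 / 2 * n)
    {c κ : ℝ} (hc0 : 0 ≤ c) (hc1 : c < 1) (hκ : κ < 2 / (1 + c))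
    (h4 : ∃ᶠ n : ℕ in atTop, ((RecB (pq α) n).ncard : ℝ) ≤ κ * n) {g g' : Matrix (Fin 2) (Fin 2) ℤ}
    (hg : g.det ≠ 0) (hg' : g'.det ≠ 0) : PowerLittlewood c (mob g α) (mob g' β) := by
  have hα0 : ∀ n, 0 < pq α n := pq_pos hα
  have hap : ¬ EvPer (pq α) := not_evPer hα
  obtain ⟨N0, hN0⟩ := eventually_atTop.1 h3
  obtain ⟨M, hM⟩ := bdd_of_fin (show 0 < N0 + 1 by omega) (hN0 (N0 + 1) (by omega)).1
    (fun i hi => h1 i (N0 + 1) hi)
  have h3' : ∃ᶠ n : ℕ in atTop, ((RecB (pq α) n).ncard : ℝ) ≤ 3 / 2 * n := (h3.mono fun n hn => hn.2).frequently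
  obtain ⟨m, R, c', d, f, hm, hR, hl⟩ := lv_ex hM hap (show (3 / 2 : ℝ) < 2 by norm_num) h3' N0
  -- the coding of the first sequence
  obtain ⟨T, hT, hTR⟩ := (frequently_atTop.1 (show ∃ᶠ i in atTop, win (pq α) i m = R from hR)) N
  have hz : ∀ n, In (pq α) n (fun k => pq α (T + k)) := fun n i => by
    rw [win_sh]
    exact h1 _ _ (by omega)
  obtain ⟨x, hx⟩ := cd_ex hl (hz (m + 1)) (by rw [win_sh]; exact hTR)
  -- the coding of the second sequence
  obtain ⟨i, hi⟩ := r_occ hl hx (z := fun k => pq β (N + k)) (fun n i => by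
    rw [win_sh]
    exact h2 _ _ (by omega))
  have hz2 : ∀ n, In (pq α) n (fun k => pq β (N + i + k)) := fun n j => by
    rw [win_sh]
    exact h2 _ _ (by omega)
  obtain ⟨y, hy⟩ := cd_ex hl (hz2 (m + 1)) (by rw [win_sh]; rw [win_sh] at hi; exact hi)
  -- words
  have hxw : ∀ k n, (lwin x k n).flatMap f ++ R ∈ RecB (pq α) (((lwin x k n).flatMap f).length + m) := by
    intro k n
    have := hz (((lwin x k n).flatMap f).length + m) (bp f x k)
    rwa [cd_win hl hx] at this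
  have hyw : ∀ k n, (lwin y k n).flatMap f ++ R ∈ RecB (pq α) (((lwin y k n).flatMap f).length + m) := by
    intro k n
    have := hz2 (((lwin y k n).flatMap f).length + m) (bp f y k)
    rwa [cd_win hl hy] at this
  have hrec : ∀ u ∈ lg x, ∃ᶠ k in atTop, lwin x k u.length = u := by
    rintro u ⟨k, hk⟩
    refine rcx hl hx ?_
    rw [← hk]
    exact hxw k u.length
  have hrx : Reads (pq α) T f x := by
    intro n
    have := hx.rd n
    rw [win_sh] at this
    exact this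
  have hry : Reads (pq β) (N + i) f y := by
    intro n
    have := hy.rd n
    rw [win_sh] at this
    exact this
  have hxp : ¬ EvPB x := fun h5 => hap (evPer_of_tail (fun n => cat_of_reads hl.ne hrx n) (cat_evPer hl.ne h5))
  have hbl := bl_lg hxp hrec
  have hQ := q_lg hM hap hl hz hx (fun n hn => (hN0 n (hm.trans hn)).2)
  have hclo : ∀ u ∈ lg x, u.reverse ∈ lg x := fun u hu => clo hbl hQ hu
  have H : MR x y := by
    intro n i
    have key : ∀ u : List Bool, u.length = n → u ∈ lg x → ∃ᶠ p in atTop, lwin x p n = u.reverse := by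
      intro u hu hux
      have := hrec _ (hclo u hux)
      rwa [List.length_reverse, hu] at this
    refine ⟨key _ (lwin_length _ _ _) ⟨i, by rw [lwin_length]⟩, key _ (lwin_length _ _ _) ?_⟩
    obtain ⟨k, hk⟩ := (rcx hl hx (hyw i n)).exists
    exact ⟨k, hk⟩
  have hp : ∀ a, ∀ e ∈ f a, 0 < e := by
    intro a e he
    have h8 : [a] ∈ lg x := by
      obtain ⟨u, hu, hu1, hu2⟩ := hbl.ap 0
      have h9 : u = [] := List.length_eq_zero_iff.1 hu
      subst h9
      cases a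
      · exact hu1
      · exact hu2
    obtain ⟨k, hk⟩ := h8
    have h5 := cd_win hl hx k 1
    have h6 : lwin x k 1 = [a] := hk
    rw [h6, win_sh] at h5
    have h7 : e ∈ win (pq α) (T + bp f x k) ((([a] : List Bool).flatMap f).length + m) := by
      rw [h5]
      simp [he]
    exact win_pos hα0 _ _ e h7
  exact main4 hl.ne hp H hα hβ hrx hry hc0 hc1 hκ h4 hg hg'

end Pool.Agent.H1.DP
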